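import Pool.Agent.T6.H86.HessDefs
import Pool.Agent.T6.H86.HessThree

namespace Pool.Agent.T6.H86.Hess

open MvPolynomial

attribute [local instance 100] LieRing.ofAssociativeRing

/-- The Hessenberg space of the counterexample: the matrices of `sp_6` whose lower left block has
vanishing upper left `2 × 2` corner. -/
noncomputable def H0 : Submodule ℂ (Matrix (Fin 3 ⊕ Fin 3) (Fin 3 ⊕ Fin 3) ℂ) where
  carrier := {M | M ∈ LieAlgebra.Symplectic.sp (Fin 3) ℂ ∧
    ∀ i j : Fin 3, i ≠ 2 → j ≠ 2 → M (Sum.inr i) (Sum.inl j) = 0}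
  add_mem' := by
    rintro a b ⟨ha, ha'⟩ ⟨hb, hb'⟩
    refine ⟨add_mem ha hb, fun i j hi hj => ?_⟩
    simp [ha' i j hi hj, hb' i j hi hj]
  zero_mem' := ⟨zero_mem _, fun i j _ _ => by simp⟩
  smul_mem' := by
    rintro c a ⟨ha, ha'⟩
    refine ⟨(LieAlgebra.Symplectic.sp (Fin 3) ℂ).smul_mem c ha, fun i j hi hj => ?_⟩
    simp [ha' i j hi hj]

theorem entry_eq {n : ℕ} {f : MvPolynomial (Fin n) ℂ}
    {M : Matrix (Fin n ⊕ Fin n) (Fin n ⊕ Fin n) ℂ} (hM : M ∈ weightSpace f) (t : Fin n → ℂ)
    (a b : Fin n ⊕ Fin n) :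
    (Sum.elim t (fun i => - t i) a - Sum.elim t (fun i => - t i) b) * M a b =
      eval t f * M a b := by
  have h := congrFun (congrFun (hM.2 t) a) b
  rw [Ring.lie_def, torusElt] at h
  simp only [Matrix.sub_apply, Matrix.diagonal_mul, Matrix.mul_diagonal, Matrix.smul_apply,
    smul_eq_mul] at h
  linear_combination h

theorem sp_iff {n : ℕ} (M : Matrix (Fin n ⊕ Fin n) (Fin n ⊕ Fin n) ℂ) :
    M ∈ LieAlgebra.Symplectic.sp (Fin n) ℂ ↔
      M.transpose * Matrix.J (Fin n) ℂ = Matrix.J (Fin n) ℂ * (-M) := by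
  rw [LieAlgebra.Symplectic.sp, mem_skewAdjointMatricesLieSubalgebra,
    mem_skewAdjointMatricesSubmodule]
  rfl

/-- The heights of the coordinate vectors. -/
def ht : Fin 3 ⊕ Fin 3 → ℤ := Sum.elim ![3, 2, 1] (fun i => - ![3, 2, 1] i)

def upper : Submodule ℂ (Matrix (Fin 3 ⊕ Fin 3) (Fin 3 ⊕ Fin 3) ℂ) where
  carrier := {M | ∀ a b, ht a < ht b → M a b = 0}
  add_mem' := by
    intro a b ha hb i j hij
    simp [ha i j hij, hb i j hij]
  zero_mem' := fun i j _ => by simp
  smul_mem' := by
    intro c a ha i j hij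
    simp [ha i j hij]

theorem weight_upper {f : MvPolynomial (Fin 3) ℂ} (m : ℕ) (hf : eval ![3, 2, 1] f = (m : ℂ)) :
    weightSpace f ≤ upper := by
  intro M hM a b hab
  have h := entry_eq hM ![3, 2, 1] a b
  rw [hf] at h
  have h2 : ∀ a, (Sum.elim ![(3 : ℂ), 2, 1] (fun i => - ![(3 : ℂ), 2, 1] i) a) = ((ht a : ℤ) : ℂ) := by
    intro a
    rcases a with i | i <;> fin_cases i <;> simp [ht]
  rw [h2, h2] at h
  have h3 : (((ht a - ht b - m : ℤ)) : ℂ) * M a b = 0 := by
    push_cast
    linear_combination h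
  rcases mul_eq_zero.1 h3 with h4 | h4
  · have : ht a - ht b - m = 0 := by exact_mod_cast h4
    omega
  · exact h4

theorem borel_upper : borel 3 ≤ upper := by
  unfold borel
  refine sup_le (weight_upper 0 (by simp)) (iSup_le fun α => ?_)
  cases α with
  | diff i j h =>
    fin_cases i <;> fin_cases j <;> first | exact absurd h (by decide) | skip
    · exact weight_upper 1 (by simp [PosRoot.form]; norm_num)
    · exact weight_upper 2 (by simp [PosRoot.form]; norm_num)
    · exact weight_upper 1 (by simp [PosRoot.form]; norm_num)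
  | sum i j h =>
    fin_cases i <;> fin_cases j <;> first | exact absurd h (by decide) | skip
    · exact weight_upper 5 (by simp [PosRoot.form]; norm_num)
    · exact weight_upper 4 (by simp [PosRoot.form]; norm_num)
    · exact weight_upper 3 (by simp [PosRoot.form]; norm_num)
  | long i =>
    fin_cases i
    · exact weight_upper 6 (by simp [PosRoot.form]; norm_num)
    · exact weight_upper 4 (by simp [PosRoot.form]; norm_num)
    · exact weight_upper 2 (by simp [PosRoot.form])

theorem borel_sp : borel 3 ≤ (LieAlgebra.Symplectic.sp (Fin 3) ℂ).toSubmodule := by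
  unfold borel
  exact sup_le (fun M hM => hM.1) (iSup_le fun α => fun M hM => hM.1)

theorem H0_hess : IsHessenbergSpace H0 := by
  refine ⟨?_, fun M hM => hM.1, ?_⟩
  · intro M hM
    refine ⟨borel_sp hM, fun i j hi hj => ?_⟩
    apply borel_upper hM
    fin_cases i <;> fin_cases j <;> decide
  · intro b hb h hh
    have hb' := borel_upper hb
    refine ⟨(LieAlgebra.Symplectic.sp (Fin 3) ℂ).lie_mem (borel_sp hb) hh.1, ?_⟩
    intro i j hi hj
    rw [Ring.lie_def, Matrix.sub_apply, Matrix.mul_apply, Matrix.mul_apply,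
      Fintype.sum_sum_type, Fintype.sum_sum_type, Fin.sum_univ_three, Fin.sum_univ_three,
      Fin.sum_univ_three, Fin.sum_univ_three]
    have hz : ∀ i j : Fin 3, i ≠ 2 → j ≠ 2 → h (Sum.inr i) (Sum.inl j) = 0 := hh.2
    have hu : ∀ a c, ht a < ht c → b a c = 0 := hb'
    have r1 : ∀ i k : Fin 3, b (Sum.inr i) (Sum.inl k) = 0 := by
      intro i k
      apply hu
      fin_cases i <;> fin_cases k <;> decide
    have r2 : b (Sum.inr 0) (Sum.inr 1) = 0 := hu _ _ (by decide)
    have r3 : b (Sum.inr 0) (Sum.inr 2) = 0 := hu _ _ (by decide)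
    have r4 : b (Sum.inr 1) (Sum.inr 2) = 0 := hu _ _ (by decide)
    have r5 : b (Sum.inl 1) (Sum.inl 0) = 0 := hu _ _ (by decide)
    have r6 : b (Sum.inl 2) (Sum.inl 0) = 0 := hu _ _ (by decide)
    have r7 : b (Sum.inl 2) (Sum.inl 1) = 0 := hu _ _ (by decide)
    have z00 := hz 0 0 (by decide) (by decide)
    have z01 := hz 0 1 (by decide) (by decide)
    have z10 := hz 1 0 (by decide) (by decide)
    have z11 := hz 1 1 (by decide) (by decide)
    fin_cases i <;> fin_cases j <;> first | exact absurd rfl hi | exact absurd rfl hj | skip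
    all_goals simp [r1, r2, r3, r4, r5, r6, r7, z00, z01, z10, z11]

theorem neg_weight_le {α : PosRoot 3} (n : ℤ) (hn : eval ![1, 10, 100] α.form = (n : ℂ))
    (h1 : n ≠ 2) (h2 : n ≠ 11) (h3 : n ≠ 20) : weightSpace (-α.form) ≤ H0 := by
  intro M hM
  refine ⟨hM.1, fun i j hi hj => ?_⟩
  have h := entry_eq hM ![1, 10, 100] (Sum.inr i) (Sum.inl j)
  rw [map_neg, hn] at h
  simp only [Sum.elim_inr, Sum.elim_inl] at h
  obtain ⟨m, hm1, hm2⟩ : ∃ m : ℤ, n ≠ m ∧
      (![(1 : ℂ), 10, 100] i + ![(1 : ℂ), 10, 100] j) = (m : ℂ) := by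
    fin_cases i <;> fin_cases j <;> first | exact absurd rfl hi | exact absurd rfl hj | skip
    · exact ⟨2, h1, by simp; norm_num⟩
    · exact ⟨11, h2, by simp; norm_num⟩
    · exact ⟨11, h2, by simp; norm_num⟩
    · exact ⟨20, h3, by simp; norm_num⟩
  have h5 : (((n - m : ℤ)) : ℂ) * M (Sum.inr i) (Sum.inl j) = 0 := by
    push_cast
    rw [← hm2]
    linear_combination h
  rcases mul_eq_zero.1 h5 with h' | h'
  · have : n - m = 0 := by exact_mod_cast h'
    omega
  · exact h'

/-- A root vector of a negative root `-(x_i + x_j)`. -/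
def negVec (i j : Fin 3) : Matrix (Fin 3 ⊕ Fin 3) (Fin 3 ⊕ Fin 3) ℂ :=
  Matrix.fromBlocks 0 0 (Matrix.single i j 1 + Matrix.single j i 1) 0

theorem negVec_mem (i j : Fin 3) (f : MvPolynomial (Fin 3) ℂ)
    (hf : ∀ t, eval t f = - (t i + t j)) : negVec i j ∈ weightSpace f := by
  refine ⟨?_, fun t => ?_⟩
  · rw [sp_iff]
    unfold negVec Matrix.J
    rw [Matrix.fromBlocks_transpose, Matrix.fromBlocks_multiply, Matrix.fromBlocks_neg,
      Matrix.fromBlocks_multiply]
    simp [add_comm]
  · rw [hf, Ring.lie_def, torusElt]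
    ext a b
    simp only [Matrix.sub_apply, Matrix.diagonal_mul, Matrix.mul_diagonal, Matrix.smul_apply,
      smul_eq_mul, negVec]
    rcases a with a | a <;> rcases b with b | b
    · simp
    · simp
    · simp only [Matrix.fromBlocks_apply₂₁, Matrix.add_apply, Matrix.single_apply, Sum.elim_inr,
        Sum.elim_inl]
      by_cases h1 : i = a ∧ j = b
      · obtain ⟨rfl, rfl⟩ := h1
        ring
      · by_cases h2 : j = a ∧ i = b
        · obtain ⟨rfl, rfl⟩ := h2
          ring
        · rw [if_neg h1, if_neg h2]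
          ring
    · simp

theorem negVec_not_mem {i j : Fin 3} (hi : i ≠ 2) (hj : j ≠ 2) : negVec i j ∉ H0 := by
  intro h
  have := h.2 i j hi hj
  simp only [negVec, Matrix.fromBlocks_apply₂₁, Matrix.add_apply, Matrix.single_apply] at this
  by_cases hij : i = j
  · subst hij
    simp at this
  · have hji : ¬ (j = i) := fun h => hij h.symm
    simp [hij] at this

theorem hessRoots_H0 : hessRoots H0 = S0 := by
  ext α
  constructor
  · intro hα
    have hα' : weightSpace (-α.form) ≤ H0 := hα
    cases α with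
    | diff i j h =>
      fin_cases i <;> fin_cases j <;> first | exact absurd h (by decide) | simp [S0]
    | sum i j h =>
      fin_cases i <;> fin_cases j <;> first | exact absurd h (by decide) | skip
      · exact absurd (hα' (negVec_mem 0 1 _ (by intro t; simp [PosRoot.form]; try ring)))
          (negVec_not_mem (by decide) (by decide))
      · simp [S0]
      · simp [S0]
    | long i =>
      fin_cases i
      · exact absurd (hα' (negVec_mem 0 0 _ (by intro t; simp [PosRoot.form]; try ring)))
          (negVec_not_mem (by decide) (by decide))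
      · exact absurd (hα' (negVec_mem 1 1 _ (by intro t; simp [PosRoot.form]; try ring)))
          (negVec_not_mem (by decide) (by decide))
      · simp [S0]
  · intro hα
    show weightSpace (-α.form) ≤ H0
    simp only [S0, Set.mem_insert_iff, Set.mem_singleton_iff] at hα
    rcases hα with rfl | rfl | rfl | rfl | rfl | rfl
    · exact neg_weight_le (-9) (by simp [PosRoot.form]; try norm_num) (by decide) (by decide)
        (by decide)
    · exact neg_weight_le (-99) (by simp [PosRoot.form]; try norm_num) (by decide) (by decide)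
        (by decide)
    · exact neg_weight_le (-90) (by simp [PosRoot.form]; try norm_num) (by decide) (by decide)
        (by decide)
    · exact neg_weight_le 101 (by simp [PosRoot.form]; try norm_num) (by decide) (by decide)
        (by decide)
    · exact neg_weight_le 110 (by simp [PosRoot.form]; try norm_num) (by decide) (by decide)
        (by decide)
    · exact neg_weight_le 200 (by simp [PosRoot.form]; try norm_num) (by decide) (by decide)
        (by decide)

end Pool.Agent.T6.H86.Hess
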