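import Mathlib

/-!
# Module C (energy) of helper50's project on MP_c6f924_an

`energy`: power sums of `2 ^ l` points of the unit disc which are spread like a Cantor set of
dimension `1/4`.
-/

set_option autoImplicit false

namespace Pool.Agent.T6.H86.LC

open Finset ComplexConjugate

/-- the kernel dominates the distance -/
theorem kernel_dist {x y : ℂ} (hx : ‖x‖ ≤ 1) (hy : ‖y‖ ≤ 1) {r : ℝ} (h0 : 1 / 4 ≤ r)
    (h1 : r ≤ 1) : ‖x - y‖ ≤ 2 * ‖1 - (r : ℂ) * (x * conj y)‖ := by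
  have hx2 : ‖x‖ ^ 2 = x.re ^ 2 + x.im ^ 2 := by
    rw [Complex.sq_norm, Complex.normSq_apply]; ring
  have hy2 : ‖y‖ ^ 2 = y.re ^ 2 + y.im ^ 2 := by
    rw [Complex.sq_norm, Complex.normSq_apply]; ring
  have hxy : ‖x - y‖ ^ 2 = (x.re - y.re) ^ 2 + (x.im - y.im) ^ 2 := by
    rw [Complex.sq_norm, Complex.normSq_apply]; simp; ring
  have hk : ‖1 - (r : ℂ) * (x * conj y)‖ ^ 2 =
      (1 - r * (x.re * y.re + x.im * y.im)) ^ 2 + (r * (x.im * y.re - x.re * y.im)) ^ 2 := by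
    rw [Complex.sq_norm, Complex.normSq_apply]
    simp
    ring
  have e : ‖1 - (r : ℂ) * (x * conj y)‖ ^ 2 - r * ‖x - y‖ ^ 2 =
      (1 - r * ‖x‖ ^ 2) * (1 - r * ‖y‖ ^ 2) := by
    rw [hk, hxy, hx2, hy2]; ring
  have hx3 : ‖x‖ ^ 2 ≤ 1 := pow_le_one₀ (norm_nonneg _) hx
  have hy3 : ‖y‖ ^ 2 ≤ 1 := pow_le_one₀ (norm_nonneg _) hy
  have h3 : 0 ≤ (1 - r * ‖x‖ ^ 2) * (1 - r * ‖y‖ ^ 2) := by
    apply mul_nonneg
    · nlinarith [sq_nonneg ‖x‖]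
    · nlinarith [sq_nonneg ‖y‖]
  have h4 : ‖x - y‖ ^ 2 ≤ (2 * ‖1 - (r : ℂ) * (x * conj y)‖) ^ 2 := by
    nlinarith [sq_nonneg ‖x - y‖]
  exact abs_le_of_sq_le_sq' h4 (by positivity) |>.2

theorem kernel_low {x y : ℂ} (hx : ‖x‖ ≤ 1) (hy : ‖y‖ ≤ 1) {r : ℝ} (h0 : 0 ≤ r) :
    1 - r ≤ ‖1 - (r : ℂ) * (x * conj y)‖ := by
  have h1 : ‖(r : ℂ) * (x * conj y)‖ ≤ r := by
    rw [norm_mul, norm_mul, Complex.norm_real, Real.norm_of_nonneg h0, Complex.norm_conj]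
    have : ‖x‖ * ‖y‖ ≤ 1 := mul_le_one₀ hx (norm_nonneg _) hy
    nlinarith
  have h2 := norm_sub_norm_le (1 : ℂ) ((r : ℂ) * (x * conj y))
  rw [norm_one] at h2
  linarith

/-- scales -/
theorem scale {d w : ℝ} (hd : d ≤ 1) (hw : 0 ≤ w) (hwd : w * d ≤ 2) :
    ∀ s : ℕ, w ≤ 32 * 16 ^ s → ∃ t ≤ s, d ≤ 1 / 16 ^ t ∧ w ≤ 32 * 16 ^ t := by
  intro s
  induction s with
  | zero => intro h; exact ⟨0, le_rfl, by simpa using hd, by simpa using h⟩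
  | succ s ih =>
    intro h
    by_cases hds : d ≤ 1 / 16 ^ (s + 1)
    · exact ⟨s + 1, le_rfl, hds, h⟩
    · push Not at hds
      have h16 : (0 : ℝ) < 16 ^ (s + 1) := by positivity
      have h1 : w * (1 / 16 ^ (s + 1)) ≤ 2 := by
        refine le_trans ?_ hwd
        exact mul_le_mul_of_nonneg_left hds.le hw
      have h2 : w ≤ 2 * 16 ^ (s + 1) := by
        rw [mul_one_div, div_le_iff₀ h16] at h1
        exact h1
      obtain ⟨t, ht, h3, h4⟩ := ih (by rw [pow_succ] at h2; linarith)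
      exact ⟨t, by omega, h3, h4⟩

theorem scale_sum {d w : ℝ} (hw : 0 ≤ w) (hwd : w * d ≤ 2) (s : ℕ) (hws : w ≤ 16 ^ s) :
    w ≤ 2 + 32 * ∑ t ∈ range (s + 1), (16 : ℝ) ^ t * (if d ≤ 1 / 16 ^ t then 1 else 0) := by
  have hnn : ∀ t ∈ range (s + 1), (0 : ℝ) ≤ (16 : ℝ) ^ t * (if d ≤ 1 / 16 ^ t then 1 else 0) := by
    intro t _
    split_ifs <;> positivity
  by_cases hd : d ≤ 1
  · obtain ⟨t, ht, h1, h2⟩ := scale hd hw hwd s (by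
      have : (0 : ℝ) < 16 ^ s := by positivity
      linarith)
    have h3 : (16 : ℝ) ^ t * (if d ≤ 1 / 16 ^ t then 1 else 0) ≤
        ∑ t ∈ range (s + 1), (16 : ℝ) ^ t * (if d ≤ 1 / 16 ^ t then 1 else 0) :=
      single_le_sum (f := fun t => (16 : ℝ) ^ t * (if d ≤ 1 / 16 ^ t then 1 else 0)) hnn
        (mem_range.2 (by omega))
    rw [if_pos h1, mul_one] at h3
    linarith
  · push Not at hd
    have h3 := sum_nonneg hnn
    have : w ≤ 2 := by nlinarith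
    linarith

/-- the energy identity, as an inequality for finite sums -/
theorem energy_le {α : Type} (S : Finset α) (x : α → ℂ) (hx : ∀ i ∈ S, ‖x i‖ ≤ 1) {r : ℝ}
    (h0 : 0 ≤ r) (h1 : r < 1) (n : ℕ) :
    ∑ p ∈ range n, r ^ p * ‖∑ i ∈ S, x i ^ p‖ ^ 2 ≤
      ∑ i ∈ S, ∑ j ∈ S, 1 / ‖1 - (r : ℂ) * (x i * conj (x j))‖ := by
  have hz : ∀ i ∈ S, ∀ j ∈ S, ‖(r : ℂ) * (x i * conj (x j))‖ < 1 := by
    intro i hi j hj
    rw [norm_mul, norm_mul, Complex.norm_real, Real.norm_of_nonneg h0, Complex.norm_conj]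
    have : ‖x i‖ * ‖x j‖ ≤ 1 := mul_le_one₀ (hx i hi) (norm_nonneg _) (hx j hj)
    nlinarith
  have hs : HasSum (fun p : ℕ => ∑ i ∈ S, ∑ j ∈ S, ((r : ℂ) * (x i * conj (x j))) ^ p)
      (∑ i ∈ S, ∑ j ∈ S, (1 - (r : ℂ) * (x i * conj (x j)))⁻¹) := by
    refine hasSum_sum (fun i hi => hasSum_sum (fun j hj => ?_))
    exact hasSum_geometric_of_norm_lt_one (hz i hi j hj)
  have he : ∀ p : ℕ, ∑ i ∈ S, ∑ j ∈ S, ((r : ℂ) * (x i * conj (x j))) ^ p =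
      ((r ^ p * ‖∑ i ∈ S, x i ^ p‖ ^ 2 : ℝ) : ℂ) := by
    intro p
    have h2 : ((‖∑ i ∈ S, x i ^ p‖ ^ 2 : ℝ) : ℂ) = (∑ i ∈ S, x i ^ p) * conj (∑ i ∈ S, x i ^ p) := by
      rw [Complex.mul_conj, Complex.normSq_eq_norm_sq]
    rw [Complex.ofReal_mul, h2, map_sum, Finset.sum_mul_sum, Finset.mul_sum]
    refine sum_congr rfl (fun i _ => ?_)
    rw [Finset.mul_sum]
    refine sum_congr rfl (fun j _ => ?_)
    rw [map_pow, Complex.ofReal_pow]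
    ring
  simp only [he] at hs
  have hre := Complex.hasSum_re hs
  simp only [Complex.ofReal_re] at hre
  have h3 := sum_le_hasSum (range n) (fun p _ => by positivity) hre
  refine h3.trans ?_
  refine (Complex.re_le_norm _).trans ?_
  refine (norm_sum_le _ _).trans (sum_le_sum (fun i _ => ?_))
  refine (norm_sum_le _ _).trans (sum_le_sum (fun j _ => ?_))
  rw [norm_inv, one_div]

theorem half_pow (n : ℕ) (hn : 1 ≤ n) : (1 : ℝ) / 4 ≤ (1 - 1 / (2 * n)) ^ (2 * n) := by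
  have hn' : (1 : ℝ) ≤ n := by exact_mod_cast hn
  have h1 : (1 : ℝ) / (2 * n) ≤ 1 / 2 := by
    rw [div_le_div_iff₀ (by positivity) (by norm_num)]
    linarith
  have h2 : 1 + (n : ℝ) * (-(1 / (2 * n))) ≤ (1 + (-(1 / (2 * n)))) ^ n :=
    one_add_mul_le_pow (by linarith) n
  have h3 : 1 + (n : ℝ) * (-(1 / (2 * n))) = 1 / 2 := by
    field_simp
    ring
  rw [h3, ← sub_eq_add_neg] at h2
  rw [mul_comm 2 n, pow_mul]
  nlinarith

theorem geo8 (s : ℕ) : ∑ t ∈ range (s + 1), (8 : ℝ) ^ t ≤ 2 * 8 ^ s := by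
  induction s with
  | zero => simp
  | succ s ih =>
    rw [sum_range_succ, pow_succ]
    have : (0 : ℝ) < 8 ^ s := by positivity
    linarith

/-- one row of the energy -/
theorem row {C : ℝ} (hC : 0 < C) {l : ℕ} {α : Type} {S : Finset α} {x : α → ℂ}
    (hcard : S.card = 2 ^ l) (hx : ∀ i ∈ S, ‖x i‖ ≤ 1) {i : α} (hi : i ∈ S)
    (hS : ∀ t : ℕ, t ≤ l → ∀ S' ⊆ S, (∀ j ∈ S', ‖x i - x j‖ ≤ 1 / 16 ^ t) →
        (S'.card : ℝ) ≤ C * 2 ^ (l - t)) {s : ℕ} (hs1 : 1 ≤ s) (hs : s ≤ l) :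
    ∑ j ∈ S, 1 / ‖1 - ((1 - 1 / 16 ^ s : ℝ) : ℂ) * (x i * conj (x j))‖ ≤
      2 ^ l * ((2 + 64 * C) * 8 ^ s) := by
  classical
  set r : ℝ := 1 - 1 / 16 ^ s with hr
  have h16 : (16 : ℝ) ≤ 16 ^ s := by
    calc (16 : ℝ) = 16 ^ 1 := by norm_num
      _ ≤ 16 ^ s := pow_le_pow_right₀ (by norm_num) hs1
  have h16' : (1 : ℝ) / 16 ^ s ≤ 1 / 16 := by
    apply one_div_le_one_div_of_le (by norm_num) h16
  have hpos : (0 : ℝ) < 1 / 16 ^ s := by positivity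
  have hr0 : 1 / 4 ≤ r := by rw [hr]; linarith
  have hr1 : r < 1 := by rw [hr]; linarith
  have hterm : ∀ j ∈ S, 1 / ‖1 - (r : ℂ) * (x i * conj (x j))‖ ≤
      2 + 32 * ∑ t ∈ range (s + 1), (16 : ℝ) ^ t * (if ‖x i - x j‖ ≤ 1 / 16 ^ t then 1 else 0) := by
    intro j hj
    have hlow := kernel_low (hx i hi) (hx j hj) (r := r) (by linarith)
    have hdist := kernel_dist (hx i hi) (hx j hj) (r := r) hr0 hr1.le
    have h1r : 1 - r = 1 / 16 ^ s := by rw [hr]; ring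
    rw [h1r] at hlow
    have hk : 0 < ‖1 - (r : ℂ) * (x i * conj (x j))‖ := lt_of_lt_of_le hpos hlow
    refine scale_sum (by positivity) ?_ s ?_
    · rw [div_mul_eq_mul_div, one_mul, div_le_iff₀ hk]
      exact hdist
    · rw [div_le_iff₀ hk]
      rw [div_le_iff₀ (by positivity)] at hlow
      linarith
  refine (sum_le_sum hterm).trans ?_
  rw [sum_add_distrib, sum_const, hcard, ← mul_sum, sum_comm]
  have hin : ∑ t ∈ range (s + 1), ∑ j ∈ S,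
      (16 : ℝ) ^ t * (if ‖x i - x j‖ ≤ 1 / 16 ^ t then 1 else 0) ≤
      ∑ t ∈ range (s + 1), 2 ^ l * C * 8 ^ t := by
    refine sum_le_sum (fun t ht => ?_)
    have htl : t ≤ l := by
      have := mem_range.1 ht
      omega
    rw [← mul_sum, sum_boole]
    have h1 := hS t htl (S.filter fun j => ‖x i - x j‖ ≤ 1 / 16 ^ t) (filter_subset _ _)
      (fun j hj => (mem_filter.1 hj).2)
    have h2 : (16 : ℝ) ^ t * (C * 2 ^ (l - t)) = 2 ^ l * C * 8 ^ t := by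
      have h3 : (2 : ℝ) ^ l = 2 ^ (l - t) * 2 ^ t := by
        rw [← pow_add]; congr 1; omega
      have h4 : (16 : ℝ) ^ t = 2 ^ t * 8 ^ t := by
        rw [← mul_pow]; norm_num
      rw [h3, h4]; ring
    rw [← h2]
    exact mul_le_mul_of_nonneg_left h1 (by positivity)
  rw [← mul_sum] at hin
  have hg := geo8 s
  have h2l : (0 : ℝ) < 2 ^ l := by positivity
  have h8 : (1 : ℝ) ≤ 8 ^ s := one_le_pow₀ (by norm_num)
  have h5 : (2 : ℝ) ^ l * C * ∑ t ∈ range (s + 1), (8 : ℝ) ^ t ≤ 2 ^ l * C * (2 * 8 ^ s) :=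
    mul_le_mul_of_nonneg_left hg (by positivity)
  have h6 : (2 : ℝ) ^ l * 1 ≤ 2 ^ l * 8 ^ s := mul_le_mul_of_nonneg_left h8 h2l.le
  rw [nsmul_eq_mul]
  push_cast
  nlinarith

/-- second moment of the power sums below `16 ^ s` -/
theorem moment {C : ℝ} (hC : 0 < C) {l : ℕ} {α : Type} {S : Finset α} {x : α → ℂ}
    (hcard : S.card = 2 ^ l) (hx : ∀ i ∈ S, ‖x i‖ ≤ 1)
    (hS : ∀ i ∈ S, ∀ t : ℕ, t ≤ l → ∀ S' ⊆ S, (∀ j ∈ S', ‖x i - x j‖ ≤ 1 / 16 ^ t) →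
        (S'.card : ℝ) ≤ C * 2 ^ (l - t)) {s : ℕ} (hs1 : 1 ≤ s) (hs : s ≤ l) :
    ∑ p ∈ range (16 ^ s), (‖∑ i ∈ S, x i ^ p‖ / 2 ^ l) ^ 2 ≤ 4 * ((2 + 64 * C) * 8 ^ s) := by
  set r : ℝ := 1 - 1 / 16 ^ s with hr
  have h16 : (16 : ℝ) ≤ 16 ^ s := by
    calc (16 : ℝ) = 16 ^ 1 := by norm_num
      _ ≤ 16 ^ s := pow_le_pow_right₀ (by norm_num) hs1
  have h16' : (1 : ℝ) / 16 ^ s ≤ 1 / 16 := by
    apply one_div_le_one_div_of_le (by norm_num) h16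
  have hpos : (0 : ℝ) < 1 / 16 ^ s := by positivity
  have hr0 : 0 ≤ r := by rw [hr]; linarith
  have hr1 : r < 1 := by rw [hr]; linarith
  have hE := energy_le S x hx hr0 hr1 (16 ^ s)
  have hrow : ∑ i ∈ S, ∑ j ∈ S, 1 / ‖1 - (r : ℂ) * (x i * conj (x j))‖ ≤
      ∑ i ∈ S, 2 ^ l * ((2 + 64 * C) * 8 ^ s) :=
    sum_le_sum (fun i hi => row hC hcard hx hi (hS i hi) hs1 hs)
  rw [sum_const, hcard, nsmul_eq_mul] at hrow
  push_cast at hrow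
  -- `r ^ (16 ^ s) ≥ 1/4`
  have hq : (1 : ℝ) / 4 ≤ r ^ (16 ^ s) := by
    have h1 := half_pow (8 * 16 ^ (s - 1)) (by
      have : 1 ≤ 16 ^ (s - 1) := Nat.one_le_pow _ _ (by norm_num)
      omega)
    have h2 : 2 * (8 * 16 ^ (s - 1)) = 16 ^ s := by
      obtain ⟨u, rfl⟩ : ∃ u, s = u + 1 := ⟨s - 1, by omega⟩
      rw [Nat.add_sub_cancel, pow_succ]; ring
    rw [h2] at h1
    have h3 : (2 * ((8 * 16 ^ (s - 1) : ℕ) : ℝ)) = 16 ^ s := by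
      have := congrArg (Nat.cast (R := ℝ)) h2
      push_cast at this ⊢
      exact this
    rw [h3] at h1
    exact h1
  have hlow : ∀ p ∈ range (16 ^ s), (‖∑ i ∈ S, x i ^ p‖ / 2 ^ l) ^ 2 * (1 / 4) ≤
      (r ^ p * ‖∑ i ∈ S, x i ^ p‖ ^ 2) / 4 ^ l := by
    intro p hp
    have h1 : (1 : ℝ) / 4 ≤ r ^ p :=
      hq.trans (pow_le_pow_of_le_one hr0 hr1.le (mem_range.1 hp).le)
    have h2 : (‖∑ i ∈ S, x i ^ p‖ / 2 ^ l) ^ 2 = ‖∑ i ∈ S, x i ^ p‖ ^ 2 / 4 ^ l := by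
      rw [div_pow, ← pow_mul, mul_comm l 2, pow_mul]; norm_num
    rw [h2, mul_div_assoc, mul_comm]
    exact mul_le_mul_of_nonneg_right h1 (by positivity)
  have hsum := sum_le_sum hlow
  rw [← sum_mul, ← sum_div] at hsum
  have h4l : (4 : ℝ) ^ l = 2 ^ l * 2 ^ l := by rw [← mul_pow]; norm_num
  have h4pos : (0 : ℝ) < 4 ^ l := by positivity
  have hfin : (∑ p ∈ range (16 ^ s), r ^ p * ‖∑ i ∈ S, x i ^ p‖ ^ 2) / 4 ^ l ≤
      (2 + 64 * C) * 8 ^ s := by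
    rw [div_le_iff₀ h4pos, h4l]
    refine (hE.trans hrow).trans (le_of_eq ?_)
    ring
  linarith

/-- one block -/
theorem block {C : ℝ} (hC : 0 < C) {l : ℕ} {α : Type} {S : Finset α} {x : α → ℂ}
    (hcard : S.card = 2 ^ l) (hx : ∀ i ∈ S, ‖x i‖ ≤ 1)
    (hS : ∀ i ∈ S, ∀ t : ℕ, t ≤ l → ∀ S' ⊆ S, (∀ j ∈ S', ‖x i - x j‖ ≤ 1 / 16 ^ t) →
        (S'.card : ℝ) ≤ C * 2 ^ (l - t)) {s : ℕ} (hs : s < l) :
    ∑ p ∈ Ico ((16 : ℕ) ^ s) (16 ^ (s + 1)), ‖∑ i ∈ S, x i ^ p‖ / ((2 : ℝ) ^ l * p) ≤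
      16 * (2 + 64 * C) * (3 / 4) ^ s + 8 * (2 / 3) ^ s := by
  have hm := moment hC hcard hx hS (s := s + 1) (by omega) (by omega)
  have hsub : Ico ((16 : ℕ) ^ s) (16 ^ (s + 1)) ⊆ range (16 ^ (s + 1)) := by
    intro p hp
    exact mem_range.2 (mem_Ico.1 hp).2
  have hm2 : ∑ p ∈ Ico ((16 : ℕ) ^ s) (16 ^ (s + 1)), (‖∑ i ∈ S, x i ^ p‖ / 2 ^ l) ^ 2 ≤
      4 * ((2 + 64 * C) * 8 ^ (s + 1)) :=
    (sum_le_sum_of_subset_of_nonneg hsub (fun _ _ _ => by positivity)).trans hm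
  have h16 : (0 : ℝ) < 16 ^ s := by positivity
  have h32 : (0 : ℝ) < (3 / 2) ^ s := by positivity
  have hterm : ∀ p ∈ Ico ((16 : ℕ) ^ s) (16 ^ (s + 1)), ‖∑ i ∈ S, x i ^ p‖ / ((2 : ℝ) ^ l * p) ≤
      1 / 16 ^ s * (((3 / 2 : ℝ) ^ s * (‖∑ i ∈ S, x i ^ p‖ / 2 ^ l) ^ 2 + (2 / 3) ^ s) / 2) := by
    intro p hp
    have hp1 : (16 : ℝ) ^ s ≤ p := by exact_mod_cast (mem_Ico.1 hp).1
    set m : ℝ := ‖∑ i ∈ S, x i ^ p‖ / 2 ^ l with hmdef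
    have hm0 : 0 ≤ m := by positivity
    have h1 : ‖∑ i ∈ S, x i ^ p‖ / ((2 : ℝ) ^ l * p) = m / p := by
      rw [hmdef, div_div]
    rw [h1]
    have h2 : m / p ≤ 1 / 16 ^ s * m := by
      rw [div_mul_eq_mul_div, one_mul]
      exact div_le_div_of_nonneg_left hm0 h16 hp1
    refine h2.trans (mul_le_mul_of_nonneg_left ?_ (by positivity))
    have h3 : (2 / 3 : ℝ) ^ s = 1 / (3 / 2) ^ s := by
      rw [one_div, ← inv_pow]; norm_num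
    rw [h3]
    have h4 : 0 ≤ ((3 / 2 : ℝ) ^ s * m - 1) ^ 2 / (3 / 2) ^ s := by positivity
    have h5 : ((3 / 2 : ℝ) ^ s * m - 1) ^ 2 / (3 / 2) ^ s =
        (3 / 2 : ℝ) ^ s * m ^ 2 - 2 * m + 1 / (3 / 2) ^ s := by
      field_simp
      ring
    rw [h5] at h4
    linarith
  refine (sum_le_sum hterm).trans ?_
  rw [← mul_sum, ← sum_div, sum_add_distrib, ← mul_sum, sum_const, Nat.card_Ico, nsmul_eq_mul]
  have hcardle : ((16 ^ (s + 1) - 16 ^ s : ℕ) : ℝ) ≤ 16 * 16 ^ s := by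
    have : 16 ^ (s + 1) - 16 ^ s ≤ 16 * 16 ^ s := by rw [pow_succ]; omega
    exact_mod_cast this
  have h23 : (0 : ℝ) < (2 / 3) ^ s := by positivity
  have ha : (3 / 2 : ℝ) ^ s * ∑ p ∈ Ico ((16 : ℕ) ^ s) (16 ^ (s + 1)), (‖∑ i ∈ S, x i ^ p‖ / 2 ^ l) ^ 2 ≤
      (3 / 2 : ℝ) ^ s * (4 * ((2 + 64 * C) * 8 ^ (s + 1))) := mul_le_mul_of_nonneg_left hm2 h32.le
  have hb : ((16 ^ (s + 1) - 16 ^ s : ℕ) : ℝ) * (2 / 3) ^ s ≤ 16 * 16 ^ s * (2 / 3) ^ s :=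
    mul_le_mul_of_nonneg_right hcardle h23.le
  have hc : 1 / (16 : ℝ) ^ s * (((3 / 2 : ℝ) ^ s * (4 * ((2 + 64 * C) * 8 ^ (s + 1))) +
      16 * 16 ^ s * (2 / 3) ^ s) / 2) = 16 * (2 + 64 * C) * (3 / 4) ^ s + 8 * (2 / 3) ^ s := by
    have e1 : (3 / 4 : ℝ) ^ s = (3 / 2) ^ s * 8 ^ s / 16 ^ s := by
      rw [← mul_pow, ← div_pow]; norm_num
    rw [e1, pow_succ]
    field_simp
    ring
  rw [← hc]
  refine mul_le_mul_of_nonneg_left ?_ (by positivity)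
  linarith

theorem blocks_eq (f : ℕ → ℝ) (l : ℕ) :
    ∑ p ∈ Ico 1 ((16 : ℕ) ^ l), f p = ∑ s ∈ range l, ∑ p ∈ Ico ((16 : ℕ) ^ s) (16 ^ (s + 1)), f p := by
  induction l with
  | zero => simp
  | succ l ih =>
    rw [sum_range_succ, ← ih]
    rw [sum_Ico_consecutive f (Nat.one_le_pow _ _ (by norm_num))
      (Nat.pow_le_pow_right (by norm_num) (by omega))]

theorem geo_bound {q : ℝ} (h0 : 0 ≤ q) (h1 : q < 1) (l : ℕ) :
    ∑ s ∈ range l, q ^ s ≤ 1 / (1 - q) := by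
  rw [one_div, ← tsum_geometric_of_lt_one h0 h1]
  exact (summable_geometric_of_lt_one h0 h1).sum_le_tsum _ (fun _ _ => by positivity)

theorem energy (C c : ℝ) (hC : 0 < C) (hc : 0 < c) :
    ∃ B : ℝ, ∀ (l : ℕ) (α : Type) (S : Finset α) (x : α → ℂ), S.card = 2 ^ l →
      (∀ i ∈ S, ‖x i‖ ≤ 1 - c / 16 ^ l) →
      (∀ i ∈ S, ∀ t : ℕ, t ≤ l → ∀ S' ⊆ S, (∀ j ∈ S', ‖x i - x j‖ ≤ 1 / 16 ^ t) →
        (S'.card : ℝ) ≤ C * 2 ^ (l - t)) →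
      ∀ N : ℕ, ∑ p ∈ Finset.Icc 1 N, ‖∑ i ∈ S, x i ^ p‖ / ((2 : ℝ) ^ l * p) ≤ B := by
  refine ⟨64 * (2 + 64 * C) + 24 + 1 / c, ?_⟩
  intro l α S x hcard hxc hS N
  have h16l : (0 : ℝ) < 16 ^ l := by positivity
  have hc16 : 0 < c / 16 ^ l := by positivity
  have hx : ∀ i ∈ S, ‖x i‖ ≤ 1 := fun i hi => (hxc i hi).trans (by linarith)
  set f : ℕ → ℝ := fun p => ‖∑ i ∈ S, x i ^ p‖ / ((2 : ℝ) ^ l * p) with hf
  have hf0 : ∀ p, 0 ≤ f p := fun p => by rw [hf]; positivity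
  obtain ⟨i₀, hi₀⟩ : S.Nonempty := by
    rw [← card_pos, hcard]; positivity
  set ρ : ℝ := 1 - c / 16 ^ l with hρ
  have hρ0 : 0 ≤ ρ := (norm_nonneg _).trans (hxc i₀ hi₀)
  have hρ1 : ρ < 1 := by rw [hρ]; linarith
  -- the tail
  have htail : ∑ p ∈ Ico (16 ^ l) (N + 16 ^ l + 1), f p ≤ 1 / c := by
    have h1 : ∀ p ∈ Ico (16 ^ l) (N + 16 ^ l + 1), f p ≤ 1 / 16 ^ l * ρ ^ p := by
      intro p hp
      have hp1 : (16 : ℝ) ^ l ≤ p := by exact_mod_cast (mem_Ico.1 hp).1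
      have h2 : ‖∑ i ∈ S, x i ^ p‖ ≤ 2 ^ l * ρ ^ p := by
        refine (norm_sum_le _ _).trans ?_
        have h3 : ∑ i ∈ S, ‖x i ^ p‖ ≤ ∑ i ∈ S, ρ ^ p := by
          refine sum_le_sum (fun i hi => ?_)
          rw [norm_pow]
          exact pow_le_pow_left₀ (norm_nonneg _) (hxc i hi) p
        refine h3.trans ?_
        rw [sum_const, hcard, nsmul_eq_mul]
        push_cast
        exact le_rfl
      have h2l : (0 : ℝ) < 2 ^ l := by positivity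
      have hppos : (0 : ℝ) < p := lt_of_lt_of_le h16l hp1
      have h4 : f p ≤ (2 ^ l * ρ ^ p) / ((2 : ℝ) ^ l * p) :=
        div_le_div_of_nonneg_right h2 (by positivity)
      have h5 : (2 ^ l * ρ ^ p) / ((2 : ℝ) ^ l * p) = ρ ^ p / p := by
        rw [mul_div_mul_left _ _ h2l.ne']
      rw [h5] at h4
      refine h4.trans ?_
      rw [div_mul_eq_mul_div, one_mul]
      exact div_le_div_of_nonneg_left (by positivity) h16l hp1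
    refine (sum_le_sum h1).trans ?_
    rw [← mul_sum]
    have h6 : ∑ p ∈ Ico (16 ^ l) (N + 16 ^ l + 1), ρ ^ p ≤ 1 / (1 - ρ) := by
      rw [one_div, ← tsum_geometric_of_lt_one hρ0 hρ1]
      exact (summable_geometric_of_lt_one hρ0 hρ1).sum_le_tsum _ (fun _ _ => by positivity)
    have h7 : 1 - ρ = c / 16 ^ l := by rw [hρ]; ring
    rw [h7] at h6
    refine (mul_le_mul_of_nonneg_left h6 (by positivity)).trans (le_of_eq ?_)
    field_simp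
  -- the blocks
  have hblocks : ∑ p ∈ Ico 1 (16 ^ l), f p ≤ 64 * (2 + 64 * C) + 24 := by
    rw [blocks_eq]
    have h1 : ∀ s ∈ range l, ∑ p ∈ Ico ((16 : ℕ) ^ s) (16 ^ (s + 1)), f p ≤
        16 * (2 + 64 * C) * (3 / 4) ^ s + 8 * (2 / 3) ^ s :=
      fun s hs => block hC hcard hx hS (mem_range.1 hs)
    refine (sum_le_sum h1).trans ?_
    rw [sum_add_distrib, ← mul_sum, ← mul_sum]
    have h2 := geo_bound (q := 3 / 4) (by norm_num) (by norm_num) l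
    have h3 := geo_bound (q := 2 / 3) (by norm_num) (by norm_num) l
    norm_num at h2 h3
    have h4 : 16 * (2 + 64 * C) * ∑ s ∈ range l, (3 / 4 : ℝ) ^ s ≤ 16 * (2 + 64 * C) * 4 :=
      mul_le_mul_of_nonneg_left h2 (by positivity)
    linarith
  have hsub : Icc 1 N ⊆ Ico 1 (16 ^ l) ∪ Ico (16 ^ l) (N + 16 ^ l + 1) := by
    intro p hp
    have h16' : 1 ≤ 16 ^ l := Nat.one_le_pow _ _ (by norm_num)
    rw [mem_Icc] at hp
    rw [mem_union, mem_Ico, mem_Ico]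
    omega
  have hdisj : Disjoint (Ico 1 (16 ^ l)) (Ico (16 ^ l) (N + 16 ^ l + 1)) :=
    Ico_disjoint_Ico_consecutive _ _ _
  have hfin := sum_le_sum_of_subset_of_nonneg hsub (fun p _ _ => hf0 p)
  rw [sum_union hdisj] at hfin
  linarith

end Pool.Agent.T6.H86.LC
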