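import Mathlib

/-!
Definitions for MP_513174_co: signed permutations, type C positive roots, Hessenberg spaces in
the symplectic Lie algebra, spline rings, the dot action, the left quotient and its characters.
-/

namespace Pool.Agent.T6.H86.Hess

open MvPolynomial

attribute [local instance 100] LieRing.ofAssociativeRing

/-- `w(-p) = -w(p)` for all signed indices `p`; the signed index `s·i` is encoded as `(i, s)`. -/
def IsSigned {n : ℕ} (w : Equiv.Perm (Fin n × ℤˣ)) : Prop :=
  ∀ i s, w (i, -s) = ((w (i, s)).1, -(w (i, s)).2)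

theorem IsSigned.mul {n : ℕ} {a b : Equiv.Perm (Fin n × ℤˣ)} (ha : IsSigned a)
    (hb : IsSigned b) : IsSigned (a * b) := by
  intro i s
  simp only [Equiv.Perm.coe_mul, Function.comp_apply]
  rw [hb i s, ha (b (i, s)).1 (b (i, s)).2]

theorem IsSigned.one {n : ℕ} : IsSigned (1 : Equiv.Perm (Fin n × ℤˣ)) := fun _ _ => rfl

theorem IsSigned.inv {n : ℕ} {a : Equiv.Perm (Fin n × ℤˣ)} (ha : IsSigned a) :
    IsSigned a⁻¹ := by
  intro i s
  rw [Equiv.Perm.inv_eq_iff_eq]
  rw [ha (a⁻¹ (i, s)).1 (a⁻¹ (i, s)).2]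
  simp

/-- The group of signed permutations of `{±1, …, ±n}`, as a subgroup of all permutations.  The
signed index `s·i` is encoded as the pair `(i, s)` with `s = ±1`; an element is a bijection `w` of
the signed indices with `w(-p) = -w(p)`. -/
def signedPermGroup (n : ℕ) : Subgroup (Equiv.Perm (Fin n × ℤˣ)) where
  carrier := {w | IsSigned w}
  mul_mem' := IsSigned.mul
  one_mem' := IsSigned.one
  inv_mem' := IsSigned.inv

/-- The group of signed permutations. -/
def SignedPerm (n : ℕ) : Type := signedPermGroup n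

instance (n : ℕ) : Group (SignedPerm n) := (signedPermGroup n).toGroup

instance (n : ℕ) : Finite (SignedPerm n) := inferInstanceAs (Finite (signedPermGroup n))

@[simp] theorem SignedPerm.one_val {n : ℕ} : (1 : SignedPerm n).1 = 1 := rfl

@[simp] theorem SignedPerm.mul_val {n : ℕ} (v w : SignedPerm n) : (v * w).1 = v.1 * w.1 := rfl

@[simp] theorem SignedPerm.inv_val {n : ℕ} (w : SignedPerm n) : (w⁻¹).1 = w.1⁻¹ := rfl

/-- The map `(i, s) ↦ (σ(i), ε(i) s)` of signed indices. -/
def signedMap {n : ℕ} (σ : Equiv.Perm (Fin n)) (ε : Fin n → ℤˣ) (p : Fin n × ℤˣ) : Fin n × ℤˣ :=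
  (σ p.1, ε p.1 * p.2)

/-- The inverse of `signedMap σ ε`. -/
def signedMapInv {n : ℕ} (σ : Equiv.Perm (Fin n)) (ε : Fin n → ℤˣ) (p : Fin n × ℤˣ) :
    Fin n × ℤˣ :=
  (σ.symm p.1, ε (σ.symm p.1) * p.2)

theorem signedMap_left {n : ℕ} (σ : Equiv.Perm (Fin n)) (ε : Fin n → ℤˣ) :
    Function.LeftInverse (signedMapInv σ ε) (signedMap σ ε) := by
  rintro ⟨i, s⟩
  simp [signedMap, signedMapInv, ← mul_assoc, Int.units_mul_self]

theorem signedMap_right {n : ℕ} (σ : Equiv.Perm (Fin n)) (ε : Fin n → ℤˣ) :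
    Function.RightInverse (signedMapInv σ ε) (signedMap σ ε) := by
  rintro ⟨i, s⟩
  simp [signedMap, signedMapInv, ← mul_assoc, Int.units_mul_self]

theorem signedMap_signed {n : ℕ} (σ : Equiv.Perm (Fin n)) (ε : Fin n → ℤˣ) :
    IsSigned (⟨signedMap σ ε, signedMapInv σ ε, signedMap_left σ ε, signedMap_right σ ε⟩ :
      Equiv.Perm (Fin n × ℤˣ)) := by
  intro i s
  simp [signedMap]

/-- The signed permutation `i ↦ ε(i)·σ(i)`. -/
def mkSigned {n : ℕ} (σ : Equiv.Perm (Fin n)) (ε : Fin n → ℤˣ) : SignedPerm n :=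
  ⟨⟨signedMap σ ε, signedMapInv σ ε, signedMap_left σ ε, signedMap_right σ ε⟩,
    signedMap_signed σ ε⟩

/-- The positive roots of type `C_n`: `x_i - x_j` and `x_i + x_j` for `i < j`, and `2 x_i`. -/
inductive PosRoot (n : ℕ)
  | diff (i j : Fin n) (h : i < j)
  | sum (i j : Fin n) (h : i < j)
  | long (i : Fin n)

namespace PosRoot

/-- A positive root, read as a linear form in `x_1, …, x_n`. -/
noncomputable def form {n : ℕ} : PosRoot n → MvPolynomial (Fin n) ℂ
  | diff i j _ => X i - X j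
  | sum i j _ => X i + X j
  | long i => 2 * X i

/-- The reflection `s_α`: the signed permutation `(i j)`, `(i -j)` or the sign change of `i`
for the root `x_i - x_j`, `x_i + x_j`, `2 x_i` respectively. -/
def refl {n : ℕ} : PosRoot n → SignedPerm n
  | diff i j _ => mkSigned (Equiv.swap i j) (fun _ => 1)
  | sum i j _ => mkSigned (Equiv.swap i j) (fun k => if k = i ∨ k = j then -1 else 1)
  | long i => mkSigned 1 (fun k => if k = i then -1 else 1)

end PosRoot

/-! ### Hessenberg spaces in the symplectic Lie algebra -/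

/-- The element `diag(t_1, …, t_n, -t_1, …, -t_n)` of the Cartan subalgebra of `sp_{2n}`. -/
noncomputable def torusElt {n : ℕ} (t : Fin n → ℂ) :
    Matrix (Fin n ⊕ Fin n) (Fin n ⊕ Fin n) ℂ :=
  Matrix.diagonal (Sum.elim t (fun i => - t i))

/-- The matrix `M` lies in `sp_{2n}(ℂ)` and `[h, M] = f(t) M` for `h = diag(t, -t)`, for all
`t`. -/
def IsWeightVector {n : ℕ} (f : MvPolynomial (Fin n) ℂ)
    (M : Matrix (Fin n ⊕ Fin n) (Fin n ⊕ Fin n) ℂ) : Prop :=
  M ∈ LieAlgebra.Symplectic.sp (Fin n) ℂ ∧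
    ∀ t : Fin n → ℂ, ⁅torusElt t, M⁆ = (eval t f) • M

theorem IsWeightVector.add {n : ℕ} {f : MvPolynomial (Fin n) ℂ}
    {a b : Matrix (Fin n ⊕ Fin n) (Fin n ⊕ Fin n) ℂ} (ha : IsWeightVector f a)
    (hb : IsWeightVector f b) : IsWeightVector f (a + b) := by
  refine ⟨add_mem ha.1 hb.1, fun t => ?_⟩
  rw [lie_add, ha.2 t, hb.2 t, smul_add]

theorem IsWeightVector.zero {n : ℕ} {f : MvPolynomial (Fin n) ℂ} :
    IsWeightVector f (0 : Matrix (Fin n ⊕ Fin n) (Fin n ⊕ Fin n) ℂ) :=
  ⟨zero_mem _, fun t => by simp⟩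

theorem IsWeightVector.smul {n : ℕ} {f : MvPolynomial (Fin n) ℂ} (c : ℂ)
    {a : Matrix (Fin n ⊕ Fin n) (Fin n ⊕ Fin n) ℂ} (ha : IsWeightVector f a) :
    IsWeightVector f (c • a) := by
  refine ⟨(LieAlgebra.Symplectic.sp (Fin n) ℂ).smul_mem c ha.1, fun t => ?_⟩
  rw [lie_smul, ha.2 t, smul_comm]

/-- The weight space in `sp_{2n}(ℂ)` for the adjoint action of the Cartan subalgebra, of weight
the linear form `f` in `x_1, …, x_n` (evaluated at `t`). -/
noncomputable def weightSpace {n : ℕ} (f : MvPolynomial (Fin n) ℂ) :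
    Submodule ℂ (Matrix (Fin n ⊕ Fin n) (Fin n ⊕ Fin n) ℂ) where
  carrier := {M | IsWeightVector f M}
  add_mem' := IsWeightVector.add
  zero_mem' := IsWeightVector.zero
  smul_mem' := fun c _ => IsWeightVector.smul c

/-- The Borel subalgebra of `sp_{2n}(ℂ)`: the Cartan subalgebra (the zero weight space) plus all
positive root spaces. -/
noncomputable def borel (n : ℕ) : Submodule ℂ (Matrix (Fin n ⊕ Fin n) (Fin n ⊕ Fin n) ℂ) :=
  weightSpace 0 ⊔ ⨆ α : PosRoot n, weightSpace α.form

/-- Hessenberg spaces of `sp_{2n}(ℂ)`: subspaces `H` with `𝔟 ⊆ H ⊆ 𝔤` and `[𝔟, H] ⊆ H`. -/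
def IsHessenbergSpace {n : ℕ} (H : Submodule ℂ (Matrix (Fin n ⊕ Fin n) (Fin n ⊕ Fin n) ℂ)) :
    Prop :=
  borel n ≤ H ∧ H ≤ (LieAlgebra.Symplectic.sp (Fin n) ℂ).toSubmodule ∧
    ∀ b ∈ borel n, ∀ h ∈ H, ⁅b, h⁆ ∈ H

/-- The positive roots `α` whose negative root space `𝔤_{-α}` is contained in `H`. -/
def hessRoots {n : ℕ} (H : Submodule ℂ (Matrix (Fin n ⊕ Fin n) (Fin n ⊕ Fin n) ℂ)) :
    Set (PosRoot n) :=
  {α | weightSpace (-α.form) ≤ H}

/-! ### Splines and the dot action -/

/-- The variable attached to the signed index `(i, s)`: it is `s·x_i`. -/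
noncomputable def svar {n : ℕ} (p : Fin n × ℤˣ) : MvPolynomial (Fin n) ℂ :=
  ((p.2 : ℤ) : MvPolynomial (Fin n) ℂ) * X p.1

/-- The action of a signed permutation on polynomials by permuting signed variables:
`w(x_i) = x_{w(i)}`. -/
noncomputable def act {n : ℕ} (w : SignedPerm n) :
    MvPolynomial (Fin n) ℂ →ₐ[ℂ] MvPolynomial (Fin n) ℂ :=
  aeval fun i => svar (w.1 (i, 1))

/-- The spline condition: `ρ(w) - ρ(w s_α) ∈ ⟨w(α)⟩` for all `w` and all roots `α ∈ S`. -/
def IsSpline {n : ℕ} (S : Set (PosRoot n)) (ρ : SignedPerm n → MvPolynomial (Fin n) ℂ) : Prop :=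
  ∀ α ∈ S, ∀ w, act w α.form ∣ ρ w - ρ (w * α.refl)

theorem IsSpline.mul {n : ℕ} {S : Set (PosRoot n)} {a b : SignedPerm n → MvPolynomial (Fin n) ℂ}
    (ha : IsSpline S a) (hb : IsSpline S b) : IsSpline S (a * b) := by
  intro α hα w
  obtain ⟨p, hp⟩ := ha α hα w
  obtain ⟨q, hq⟩ := hb α hα w
  refine ⟨p * b w + a (w * α.refl) * q, ?_⟩
  simp only [Pi.mul_apply]
  linear_combination b w * hp + a (w * α.refl) * hq

theorem IsSpline.add {n : ℕ} {S : Set (PosRoot n)} {a b : SignedPerm n → MvPolynomial (Fin n) ℂ}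
    (ha : IsSpline S a) (hb : IsSpline S b) : IsSpline S (a + b) := by
  intro α hα w
  have := dvd_add (ha α hα w) (hb α hα w)
  simpa [Pi.add_apply, add_sub_add_comm] using this

theorem IsSpline.algebraMap {n : ℕ} {S : Set (PosRoot n)} (r : ℂ) :
    IsSpline S (algebraMap ℂ (SignedPerm n → MvPolynomial (Fin n) ℂ) r) := by
  intro α hα w
  simp

/-- The spline ring: tuples `ρ` of polynomials indexed by the signed permutations with
`ρ(w) - ρ(w s_α) ∈ ⟨w(α)⟩` for all `w` and all roots `α` in the given set. -/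
noncomputable def splineRing {n : ℕ} (S : Set (PosRoot n)) :
    Subalgebra ℂ (SignedPerm n → MvPolynomial (Fin n) ℂ) where
  carrier := {ρ | IsSpline S ρ}
  mul_mem' := IsSpline.mul
  add_mem' := IsSpline.add
  algebraMap_mem' := IsSpline.algebraMap

/-- The action is multiplicative. -/
theorem act_svar {n : ℕ} (w : SignedPerm n) (p : Fin n × ℤˣ) : act w (svar p) = svar (w.1 p) := by
  obtain ⟨i, s⟩ := p
  rcases Int.units_eq_one_or s with rfl | rfl
  · simp [svar, act]
  · have h := w.2 i 1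
    rw [show (-1 : ℤˣ) = -1 from rfl] at h
    simp [svar, act, h]

theorem act_mul {n : ℕ} (v w : SignedPerm n) (p : MvPolynomial (Fin n) ℂ) :
    act (v * w) p = act v (act w p) := by
  have : act (v * w) = (act v).comp (act w) := by
    apply MvPolynomial.algHom_ext
    intro i
    have h1 : act w (X i) = svar (w.1 (i, 1)) := by simp [act]
    have h2 : act (v * w) (X i) = svar ((v * w).1 (i, 1)) := by simp [act]
    rw [AlgHom.comp_apply, h1, act_svar, h2]
    rfl
  rw [this]
  rfl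

theorem act_one {n : ℕ} (p : MvPolynomial (Fin n) ℂ) : act (1 : SignedPerm n) p = p := by
  have : act (1 : SignedPerm n) = AlgHom.id ℂ _ := by
    apply MvPolynomial.algHom_ext
    intro i
    simp [act, svar]
  rw [this]
  rfl

/-- A signed permutation preserves the degree of homogeneous polynomials. -/
theorem act_homog {n k : ℕ} (w : SignedPerm n) {p : MvPolynomial (Fin n) ℂ}
    (hp : p.IsHomogeneous k) : (act w p).IsHomogeneous k := by
  have h : (act w p).IsHomogeneous (1 * k) := by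
    unfold act
    apply MvPolynomial.IsHomogeneous.aeval hp
    intro i
    unfold svar
    rw [show (((w.1 (i, 1)).2 : ℤ) : MvPolynomial (Fin n) ℂ) = C (((w.1 (i, 1)).2 : ℤ) : ℂ) by
      simp]
    exact (isHomogeneous_C_mul_X _ _)
  simpa using h

/-- The spline ring, as a type. -/
def SplineRing {n : ℕ} (S : Set (PosRoot n)) : Type := splineRing S

/-- A spline, as an element of the spline ring. -/
def SplineRing.mk {n : ℕ} {S : Set (PosRoot n)} (ρ : SignedPerm n → MvPolynomial (Fin n) ℂ)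
    (hρ : ρ ∈ splineRing S) : SplineRing S := ⟨ρ, hρ⟩

noncomputable instance {n : ℕ} (S : Set (PosRoot n)) : CommRing (SplineRing S) :=
  (splineRing S).toCommRing

noncomputable instance {n : ℕ} (S : Set (PosRoot n)) : Algebra ℂ (SplineRing S) :=
  (splineRing S).algebra

/-- The tuple `w·ρ` with `(w·ρ)(v) = w(ρ(w⁻¹ v))`. -/
noncomputable def dotFun {n : ℕ} (w : SignedPerm n) (ρ : SignedPerm n → MvPolynomial (Fin n) ℂ)
    (v : SignedPerm n) : MvPolynomial (Fin n) ℂ :=
  act w (ρ (w⁻¹ * v))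

theorem dotFun_one {n : ℕ} (w : SignedPerm n) : dotFun w 1 = 1 := by
  funext v
  simp [dotFun]

theorem dotFun_zero {n : ℕ} (w : SignedPerm n) : dotFun w 0 = 0 := by
  funext v
  simp [dotFun]

theorem dotFun_mul' {n : ℕ} (w : SignedPerm n) (a b : SignedPerm n → MvPolynomial (Fin n) ℂ) :
    dotFun w (a * b) = dotFun w a * dotFun w b := by
  funext v
  simp [dotFun]

theorem dotFun_add' {n : ℕ} (w : SignedPerm n) (a b : SignedPerm n → MvPolynomial (Fin n) ℂ) :
    dotFun w (a + b) = dotFun w a + dotFun w b := by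
  funext v
  simp [dotFun]

theorem dotFun_smul' {n : ℕ} (w : SignedPerm n) (c : ℂ)
    (a : SignedPerm n → MvPolynomial (Fin n) ℂ) : dotFun w (c • a) = c • dotFun w a := by
  funext v
  simp [dotFun]

theorem dotFun_mem {n : ℕ} {S : Set (PosRoot n)} (w : SignedPerm n)
    {ρ : SignedPerm n → MvPolynomial (Fin n) ℂ} (hρ : ρ ∈ splineRing S) :
    dotFun w ρ ∈ splineRing S := by
  intro α hα v
  obtain ⟨q, hq⟩ := hρ α hα (w⁻¹ * v)
  refine ⟨act w q, ?_⟩
  show act w (ρ (w⁻¹ * v)) - act w (ρ (w⁻¹ * (v * α.refl))) = act v α.form * act w q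
  rw [← mul_assoc, ← map_sub, hq, map_mul, ← act_mul, mul_inv_cancel_left]

/-- The dot action on the spline ring, as a ring homomorphism. -/
noncomputable def dot {n : ℕ} (S : Set (PosRoot n)) (w : SignedPerm n) :
    SplineRing S →+* SplineRing S where
  toFun ρ := ⟨dotFun w ρ.1, dotFun_mem w ρ.2⟩
  map_one' := Subtype.ext (dotFun_one w)
  map_mul' _ _ := Subtype.ext (dotFun_mul' w _ _)
  map_zero' := Subtype.ext (dotFun_zero w)
  map_add' _ _ := Subtype.ext (dotFun_add' w _ _)

/-- `ρ` is a spline all of whose components are homogeneous of degree `k`. -/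
def IsSplinePart {n : ℕ} (S : Set (PosRoot n)) (k : ℕ)
    (ρ : SignedPerm n → MvPolynomial (Fin n) ℂ) : Prop :=
  ρ ∈ splineRing S ∧ ∀ w, (ρ w).IsHomogeneous k

theorem IsSplinePart.add {n : ℕ} {S : Set (PosRoot n)} {k : ℕ}
    {a b : SignedPerm n → MvPolynomial (Fin n) ℂ} (ha : IsSplinePart S k a)
    (hb : IsSplinePart S k b) : IsSplinePart S k (a + b) :=
  ⟨add_mem ha.1 hb.1, fun w => (ha.2 w).add (hb.2 w)⟩

theorem IsSplinePart.zero {n : ℕ} {S : Set (PosRoot n)} {k : ℕ} :
    IsSplinePart S k (0 : SignedPerm n → MvPolynomial (Fin n) ℂ) :=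
  ⟨zero_mem _, fun _ => isHomogeneous_zero _ _ _⟩

theorem IsSplinePart.smul {n : ℕ} {S : Set (PosRoot n)} {k : ℕ} (c : ℂ)
    {a : SignedPerm n → MvPolynomial (Fin n) ℂ} (ha : IsSplinePart S k a) :
    IsSplinePart S k (c • a) := by
  refine ⟨(splineRing S).smul_mem ha.1 c, fun w => ?_⟩
  have := (isHomogeneous_C (Fin n) c).mul (ha.2 w)
  rw [zero_add, ← MvPolynomial.smul_eq_C_mul] at this
  exact this

/-- The degree `k` part of the spline ring. -/
noncomputable def splinePart {n : ℕ} (S : Set (PosRoot n)) (k : ℕ) :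
    Submodule ℂ (SignedPerm n → MvPolynomial (Fin n) ℂ) where
  carrier := {ρ | IsSplinePart S k ρ}
  add_mem' := IsSplinePart.add
  zero_mem' := IsSplinePart.zero
  smul_mem' := fun c _ => IsSplinePart.smul c

/-- The degree `k` part of the spline ring, as a type. -/
def SplinePart {n : ℕ} (S : Set (PosRoot n)) (k : ℕ) : Type := splinePart S k

noncomputable instance {n : ℕ} (S : Set (PosRoot n)) (k : ℕ) : AddCommGroup (SplinePart S k) :=
  (splinePart S k).addCommGroup

noncomputable instance {n : ℕ} (S : Set (PosRoot n)) (k : ℕ) : Module ℂ (SplinePart S k) :=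
  (splinePart S k).module

/-- The ideal of the spline ring generated by the constant splines `(p, …, p)` with `p`
homogeneous of positive degree. -/
noncomputable def leftIdeal {n : ℕ} (S : Set (PosRoot n)) : Ideal (SplineRing S) :=
  Ideal.span {ρ | ∃ (p : MvPolynomial (Fin n) ℂ) (d : ℕ), 0 < d ∧ p.IsHomogeneous d ∧
    ∀ w, ρ.1 w = p}

/-- The element `ρ` of the degree `k` part of the spline ring lies in the ideal `leftIdeal S`. -/
def InLeftIdeal {n : ℕ} (S : Set (PosRoot n)) (k : ℕ) (ρ : SplinePart S k) : Prop :=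
  SplineRing.mk ρ.1 ρ.2.1 ∈ leftIdeal S

theorem InLeftIdeal.add {n : ℕ} {S : Set (PosRoot n)} {k : ℕ} {a b : SplinePart S k}
    (ha : InLeftIdeal S k a) (hb : InLeftIdeal S k b) : InLeftIdeal S k (a + b) :=
  (leftIdeal S).add_mem ha hb

theorem InLeftIdeal.zero {n : ℕ} {S : Set (PosRoot n)} {k : ℕ} :
    InLeftIdeal S k (0 : SplinePart S k) :=
  (leftIdeal S).zero_mem

theorem InLeftIdeal.smul {n : ℕ} {S : Set (PosRoot n)} {k : ℕ} (c : ℂ) {a : SplinePart S k}
    (ha : InLeftIdeal S k a) : InLeftIdeal S k (c • a) :=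
  ((leftIdeal S).restrictScalars ℂ).smul_mem c ha

/-- The degree `k` part of the ideal `leftIdeal S`, as a subspace of the degree `k` part of the
spline ring. -/
noncomputable def idealPart {n : ℕ} (S : Set (PosRoot n)) (k : ℕ) :
    Submodule ℂ (SplinePart S k) where
  carrier := {ρ | InLeftIdeal S k ρ}
  add_mem' := InLeftIdeal.add
  zero_mem' := InLeftIdeal.zero
  smul_mem' := fun c _ => InLeftIdeal.smul c

/-- The degree `k` piece of the left quotient. -/
def LeftQuotient {n : ℕ} (S : Set (PosRoot n)) (k : ℕ) : Type :=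
  SplinePart S k ⧸ idealPart S k

noncomputable instance {n : ℕ} (S : Set (PosRoot n)) (k : ℕ) : AddCommGroup (LeftQuotient S k) :=
  Submodule.Quotient.addCommGroup (idealPart S k)

noncomputable instance {n : ℕ} (S : Set (PosRoot n)) (k : ℕ) : Module ℂ (LeftQuotient S k) :=
  Submodule.Quotient.module (idealPart S k)

theorem dot_mem_leftIdeal {n : ℕ} (S : Set (PosRoot n)) (w : SignedPerm n)
    (ρ : SplineRing S) (hρ : ρ ∈ leftIdeal S) : dot S w ρ ∈ leftIdeal S := by
  have h : leftIdeal S ≤ (leftIdeal S).comap (dot S w) := by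
    conv_lhs => unfold leftIdeal
    rw [Ideal.span_le]
    rintro ρ ⟨p, d, hd, hp, hw⟩
    refine Ideal.subset_span ⟨act w p, d, hd, act_homog w hp, fun v => ?_⟩
    show act w (ρ.1 (w⁻¹ * v)) = act w p
    rw [hw]
  exact h hρ

theorem dotFun_mem_part {n : ℕ} {S : Set (PosRoot n)} {k : ℕ} (w : SignedPerm n)
    {ρ : SignedPerm n → MvPolynomial (Fin n) ℂ} (hρ : ρ ∈ splinePart S k) :
    dotFun w ρ ∈ splinePart S k :=
  ⟨dotFun_mem w hρ.1, fun v => act_homog w (hρ.2 (w⁻¹ * v))⟩

/-- The element `w·ρ` of the degree `k` part of the spline ring. -/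
noncomputable def dotMk {n : ℕ} {S : Set (PosRoot n)} {k : ℕ} (w : SignedPerm n)
    (ρ : SplinePart S k) : SplinePart S k :=
  ⟨dotFun w ρ.1, dotFun_mem_part w ρ.2⟩

theorem dotMk_add {n : ℕ} {S : Set (PosRoot n)} {k : ℕ} (w : SignedPerm n)
    (a b : SplinePart S k) : dotMk w (a + b) = dotMk w a + dotMk w b :=
  Subtype.ext (dotFun_add' w _ _)

theorem dotMk_smul {n : ℕ} {S : Set (PosRoot n)} {k : ℕ} (w : SignedPerm n)
    (c : ℂ) (a : SplinePart S k) : dotMk w (c • a) = c • dotMk w a :=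
  Subtype.ext (dotFun_smul' w _ _)

/-- The dot action `(w·ρ)(v) = w(ρ(w⁻¹ v))` on the degree `k` part of the spline ring. -/
noncomputable def dotPart {n : ℕ} (S : Set (PosRoot n)) (k : ℕ) (w : SignedPerm n) :
    SplinePart S k →ₗ[ℂ] SplinePart S k where
  toFun := dotMk w
  map_add' := dotMk_add w
  map_smul' := dotMk_smul w

theorem dotPart_ideal {n : ℕ} (S : Set (PosRoot n)) (k : ℕ) (w : SignedPerm n) :
    idealPart S k ≤ (idealPart S k).comap (dotPart S k w) := by
  intro ρ hρ
  rw [Submodule.mem_comap]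
  exact dot_mem_leftIdeal S w (SplineRing.mk ρ.1 ρ.2.1) hρ

/-- The dot action on the degree `k` piece of the left quotient. -/
noncomputable def dotQuotient {n : ℕ} (S : Set (PosRoot n)) (k : ℕ) (w : SignedPerm n) :
    LeftQuotient S k →ₗ[ℂ] LeftQuotient S k :=
  Submodule.mapQ (idealPart S k) (idealPart S k) (dotPart S k w) (dotPart_ideal S k w)

/-- The character `L_k` of the dot action on the degree `k` piece of the left quotient. -/
noncomputable def leftChar {n : ℕ} (S : Set (PosRoot n)) (k : ℕ) (w : SignedPerm n) : ℂ :=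
  LinearMap.trace ℂ (LeftQuotient S k) (dotQuotient S k w)

/-! ### Reflection subgroups and coset characters -/

/-- A reflection subgroup: a subgroup generated by a set of reflections. -/
def IsReflectionSubgroup {n : ℕ} (R : Subgroup (SignedPerm n)) : Prop :=
  ∃ T : Set (SignedPerm n), T ⊆ Set.range (PosRoot.refl (n := n)) ∧ R = Subgroup.closure T

/-- The character `π_R` of the permutation action on the cosets of `R`: the value at `w` is the
number of cosets fixed by `w`. -/
noncomputable def cosetChar {n : ℕ} (R : Subgroup (SignedPerm n)) (w : SignedPerm n) : ℂ :=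
  (Nat.card {q : SignedPerm n ⧸ R // w • q = q} : ℂ)

/-- A class function is a combination of the characters `π_R`, `R` a reflection subgroup, with
non-negative integer coefficients. -/
def IsReflectionPositive {n : ℕ} (χ : SignedPerm n → ℂ) : Prop :=
  ∃ c : Subgroup (SignedPerm n) →₀ ℕ, (∀ R ∈ c.support, IsReflectionSubgroup R) ∧
    ∀ w, χ w = c.sum fun R m => (m : ℂ) * cosetChar R w

end Pool.Agent.T6.H86.Hess
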