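import Pool.Agent.T6.H86.HessEven

namespace Pool.Agent.T6.H86.Hess

open MvPolynomial

theorem perm3_cases (σ : Equiv.Perm (Fin 3)) :
    (σ 0 = 0 ∧ σ 1 = 1 ∧ σ 2 = 2) ∨ (σ 0 = 0 ∧ σ 1 = 2 ∧ σ 2 = 1) ∨
    (σ 0 = 1 ∧ σ 1 = 0 ∧ σ 2 = 2) ∨ (σ 0 = 1 ∧ σ 1 = 2 ∧ σ 2 = 0) ∨
    (σ 0 = 2 ∧ σ 1 = 0 ∧ σ 2 = 1) ∨ (σ 0 = 2 ∧ σ 1 = 1 ∧ σ 2 = 0) := by
  revert σ
  decide

theorem even_form {ρ : SignedPerm 3 → MvPolynomial (Fin 3) ℂ} (hρ : ρ ∈ splineRing S0)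
    (hev : ∀ v, PP ρ (negOne 3 * v) = PP ρ v) (hh : ∀ v, (PP ρ v).IsHomogeneous 2) :
    ∃ (lam mu nu : Fin 3 → ℂ) (k1 k2 k3 k4 k5 : ℂ), ∀ (σ : Equiv.Perm (Fin 3)) (ε : Fin 3 → ℤˣ),
      PP ρ (mkSigned σ ε) = Q6 (lam (σ 0)) (k1 + lam (σ 1))
        (k2 + lam (σ 2) + ((ε 0 * ε 1 : ℤˣ) : ℤ) * mu (σ 2))
        (k3 + ((ε 0 * ε 1 : ℤˣ) : ℤ) * nu (σ 2))
        (k4 + ((ε 0 * ε 2 : ℤˣ) : ℤ) * nu (σ 1) + ((ε 1 * ε 2 : ℤˣ) : ℤ) * mu (σ 0))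
        (k5 + ((ε 1 * ε 2 : ℤˣ) : ℤ) * nu (σ 0) + ((ε 0 * ε 2 : ℤˣ) : ℤ) * mu (σ 1)) := by
  obtain ⟨lam, mu, nu, k1, k2, k3, k4, k5, h⟩ := (toQ hρ hev hh).main
  refine ⟨lam, mu, nu, k1, k2, k3, k4, k5, fun σ ε => ?_⟩
  have key : ∀ ε : Fin 3 → ℤˣ, ∃ i, ε = sg i ∨ ε = fun k => - sg i k := by decide
  obtain ⟨i, hi⟩ := key ε
  rw [even_eq hev σ hi, quad_eq (hh _)]
  obtain ⟨h1, h2, h3, h4, h5, h6⟩ := h σ i
  simp only [toQ, VV] at h1 h2 h3 h4 h5 h6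
  rw [h1, h2, h3, h4, h5, h6]
  have e1 : chi1 i = ((ε 1 * ε 2 : ℤˣ) : ℤ) := by
    rcases hi with rfl | rfl <;> fin_cases i <;> simp [chi1, sg]
  have e2 : chi2 i = ((ε 0 * ε 2 : ℤˣ) : ℤ) := by
    rcases hi with rfl | rfl <;> fin_cases i <;> simp [chi2, sg]
  have e3 : chi3 i = ((ε 0 * ε 1 : ℤˣ) : ℤ) := by
    rcases hi with rfl | rfl <;> fin_cases i <;> simp [chi3, sg]
  rw [e1, e2, e3]

/-- A criterion to be a spline, in left-invariant form. -/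
theorem mem_spline_of {n : ℕ} {S : Set (PosRoot n)} {p : SignedPerm n → MvPolynomial (Fin n) ℂ}
    (h : ∀ α ∈ S, ∀ v, α.form ∣ p v - act α.refl (p (v * α.refl))) :
    (fun v => act v (p v)) ∈ splineRing S := by
  intro α hα v
  obtain ⟨q, hq⟩ := h α hα v
  refine ⟨act v q, ?_⟩
  show act v (p v) - act (v * α.refl) (p (v * α.refl)) = _
  rw [act_mul, ← map_sub, hq, map_mul]

theorem act_refl_X_dvd {n : ℕ} (α : PosRoot n) (k : Fin n) :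
    α.form ∣ X k - act α.refl (X k) := by
  cases α with
  | diff i j h =>
    simp only [PosRoot.form, PosRoot.refl, act_mkSigned_X]
    rcases eq_or_ne k i with rfl | hk
    · simp
    · rcases eq_or_ne k j with rfl | hk'
      · simp only [Equiv.swap_apply_right]
        exact ⟨-1, by simp⟩
      · simp [Equiv.swap_apply_of_ne_of_ne hk hk']
  | sum i j h =>
    simp only [PosRoot.form, PosRoot.refl, act_mkSigned_X]
    rcases eq_or_ne k i with rfl | hk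
    · simp
    · rcases eq_or_ne k j with rfl | hk'
      · simp only [Equiv.swap_apply_right]
        exact ⟨1, by simp; ring⟩
      · simp [Equiv.swap_apply_of_ne_of_ne hk hk', hk, hk']
  | long i =>
    simp only [PosRoot.form, PosRoot.refl, act_mkSigned_X]
    rcases eq_or_ne k i with rfl | hk
    · exact ⟨1, by simp; ring⟩
    · simp [hk]

/-- The invariant splines `v ↦ v(x_k)`. -/
noncomputable def Xel (k : Fin 3) : SplineRing S0 :=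
  ⟨fun v => act v (X k), mem_spline_of (p := fun _ => X k) fun α _ _ => act_refl_X_dvd α k⟩

/-- Constant splines. -/
noncomputable def constel (p : MvPolynomial (Fin 3) ℂ) : SplineRing S0 :=
  ⟨fun _ => p, fun α _ w => by simp⟩

/-- The sign character counting sign changes. -/
def dl (v : SignedPerm 3) : ℤˣ := ∏ i, (v.1 (i, 1)).2

theorem dl_mkSigned (σ : Equiv.Perm (Fin 3)) (ε : Fin 3 → ℤˣ) :
    dl (mkSigned σ ε) = ε 0 * ε 1 * ε 2 := by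
  simp [dl, mkSigned_apply, Fin.prod_univ_three]

theorem dl_mul (v : SignedPerm 3) (τ : Equiv.Perm (Fin 3)) (η : Fin 3 → ℤˣ) :
    dl (v * mkSigned τ η) = dl v * (η 0 * η 1 * η 2) := by
  obtain ⟨σ, ε, rfl⟩ := exists_mkSigned v
  rw [mkSigned_mul, dl_mkSigned, dl_mkSigned]
  have : ε (τ 0) * ε (τ 1) * ε (τ 2) = ε 0 * ε 1 * ε 2 := by
    rw [← Fin.prod_univ_three, ← Fin.prod_univ_three (fun i => ε (τ i))]
    exact Equiv.prod_comp τ ε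
  rw [← this]
  simp only [mul_assoc, mul_comm, mul_left_comm]

/-- The spline `v ↦ δ(v) v(x_3)`. -/
noncomputable def tauel : SplineRing S0 :=
  ⟨fun v => act v (C ((dl v : ℤ) : ℂ) * X 2), by
    apply mem_spline_of (p := fun v => C ((dl v : ℤ) : ℂ) * X 2)
    intro α hα v
    simp only [S0, Set.mem_insert_iff, Set.mem_singleton_iff] at hα
    rcases hα with rfl | rfl | rfl | rfl | rfl | rfl <;>
      simp only [PosRoot.refl, dl_mul, map_mul, act_mkSigned_X, PosRoot.form]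
    · rw [Equiv.swap_apply_of_ne_of_ne (by decide) (by decide)]
      simp
    · refine ⟨- C ((dl v : ℤ) : ℂ), ?_⟩
      simp
      ring
    · refine ⟨- C ((dl v : ℤ) : ℂ), ?_⟩
      simp
      ring
    · refine ⟨C ((dl v : ℤ) : ℂ), ?_⟩
      simp
      ring
    · refine ⟨C ((dl v : ℤ) : ℂ), ?_⟩
      simp
      ring
    · simp⟩

/-- The building block of the splines `Y_i`. -/
noncomputable def gY (q : Fin 3 × ℤˣ) : MvPolynomial (Fin 3) ℂ :=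
  C ((q.2 : ℤ) : ℂ) * (X q.1 ^ 2 - X 2 ^ 2)

/-- The splines `v ↦ ε·(x_i² - v(x_3)²)` with `ε` the sign of `v⁻¹(i)`. -/
noncomputable def Yel (i : Fin 3) : SplineRing S0 :=
  ⟨fun v => act v (gY (v⁻¹.1 (i, 1))), by
    apply mem_spline_of (p := fun v => gY (v⁻¹.1 (i, 1)))
    intro α hα v
    obtain ⟨k, s, hks⟩ : ∃ k s, v⁻¹.1 (i, 1) = (k, s) := ⟨_, _, rfl⟩
    have h2 : (v * α.refl)⁻¹.1 (i, 1) = α.refl⁻¹.1 (k, s) := by
      rw [mul_inv_rev, ← hks]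
      rfl
    rw [h2, hks]
    clear h2 hks
    simp only [S0, Set.mem_insert_iff, Set.mem_singleton_iff] at hα
    have inv_apply : ∀ (σ : Equiv.Perm (Fin 3)) (ε : Fin 3 → ℤˣ),
      (mkSigned σ ε)⁻¹.1 (k, s) = (σ.symm k, ε (σ.symm k) * s) := fun _ _ => rfl
    have sw1 : Equiv.swap (0 : Fin 3) 1 2 = 2 := by decide
    have sw2 : Equiv.swap (0 : Fin 3) 2 1 = 1 := by decide
    have sw3 : Equiv.swap (1 : Fin 3) 2 0 = 0 := by decide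
    rcases hα with rfl | rfl | rfl | rfl | rfl | rfl <;>
      simp only [PosRoot.refl, PosRoot.form, inv_apply, gY, map_mul, map_sub, map_pow,
        act_mkSigned_X, Equiv.symm_swap, algHom_C]
    · refine ⟨0, ?_⟩
      fin_cases k <;> simp [sw1]
    · refine ⟨C ((s : ℤ) : ℂ) * (X 0 + X 2), ?_⟩
      fin_cases k <;> simp [sw2] <;> ring
    · refine ⟨C ((s : ℤ) : ℂ) * (X 1 + X 2), ?_⟩
      fin_cases k <;> simp [sw3] <;> ring
    · refine ⟨C (if k = 2 then -((s : ℤ) : ℂ) else ((s : ℤ) : ℂ)) * (X 0 - X 2), ?_⟩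
      fin_cases k <;> simp [sw2] <;> ring
    · refine ⟨C (if k = 2 then -((s : ℤ) : ℂ) else ((s : ℤ) : ℂ)) * (X 1 - X 2), ?_⟩
      fin_cases k <;> simp [sw3] <;> ring
    · refine ⟨0, ?_⟩
      have o1 : (Equiv.symm (1 : Equiv.Perm (Fin 3))) = 1 := rfl
      fin_cases k <;> simp [o1]⟩

theorem constel_mem {p : MvPolynomial (Fin 3) ℂ} {d : ℕ} (hd : 0 < d) (hp : p.IsHomogeneous d) :
    constel p ∈ leftIdeal S0 :=
  Ideal.subset_span ⟨p, d, hd, hp, fun _ => rfl⟩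

theorem PP_even {ρ : SignedPerm 3 → MvPolynomial (Fin 3) ℂ} (hh : ∀ v, (ρ v).IsHomogeneous 2)
    (hev : ∀ v, ρ (negOne 3 * v) = ρ v) (v : SignedPerm 3) :
    PP ρ (negOne 3 * v) = PP ρ v := by
  unfold PP
  rw [hev, mul_inv_rev, negOne_inv, act_mul, act_negOne (hh v)]
  simp

theorem even_mod {ρ : SignedPerm 3 → MvPolynomial (Fin 3) ℂ} (hρ : ρ ∈ splinePart S0 2)
    (hev : ∀ v, ρ (negOne 3 * v) = ρ v) : ∃ k1 k2 k3 k4 k5 : ℂ,
    (SplineRing.mk ρ hρ.1) - (k1 • (Xel 1) ^ 2 + k2 • (Xel 2) ^ 2 + k3 • (Xel 0 * Xel 1) +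
      k4 • (Xel 0 * Xel 2) + k5 • (Xel 1 * Xel 2)) ∈ leftIdeal S0 := by
  have hh : ∀ v, (PP ρ v).IsHomogeneous 2 := fun v => act_homog _ (hρ.2 v)
  obtain ⟨lam, mu, nu, k1, k2, k3, k4, k5, h⟩ := even_form hρ.1 (PP_even hρ.2 hev) hh
  refine ⟨k1, k2, k3, k4, k5, ?_⟩
  have key : (SplineRing.mk ρ hρ.1) - (k1 • (Xel 1) ^ 2 + k2 • (Xel 2) ^ 2 +
      k3 • (Xel 0 * Xel 1) + k4 • (Xel 0 * Xel 2) + k5 • (Xel 1 * Xel 2)) =
      constel (C (lam 0) * X 0 ^ 2 + C (lam 1) * X 1 ^ 2 + C (lam 2) * X 2 ^ 2 +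
        C (nu 2) * (X 0 * X 1) + C (nu 1) * (X 0 * X 2) + C (nu 0) * (X 1 * X 2)) +
      constel (C (mu 0) * X 0 + C (mu 1) * X 1 + C (mu 2) * X 2) * tauel := by
    apply Subtype.ext
    funext v
    obtain ⟨σ, ε, rfl⟩ := exists_mkSigned v
    show ρ (mkSigned σ ε) - (k1 • (act (mkSigned σ ε) (X 1)) ^ 2 +
      k2 • (act (mkSigned σ ε) (X 2)) ^ 2 +
      k3 • (act (mkSigned σ ε) (X 0) * act (mkSigned σ ε) (X 1)) +
      k4 • (act (mkSigned σ ε) (X 0) * act (mkSigned σ ε) (X 2)) +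
      k5 • (act (mkSigned σ ε) (X 1) * act (mkSigned σ ε) (X 2))) =
      (C (lam 0) * X 0 ^ 2 + C (lam 1) * X 1 ^ 2 + C (lam 2) * X 2 ^ 2 +
        C (nu 2) * (X 0 * X 1) + C (nu 1) * (X 0 * X 2) + C (nu 0) * (X 1 * X 2)) +
      (C (mu 0) * X 0 + C (mu 1) * X 1 + C (mu 2) * X 2) *
        act (mkSigned σ ε) (C ((dl (mkSigned σ ε) : ℤ) : ℂ) * X 2)
    have r1 : (C (lam 0) * X 0 ^ 2 + C (lam 1) * X 1 ^ 2 + C (lam 2) * X 2 ^ 2 +
        C (nu 2) * (X 0 * X 1) + C (nu 1) * (X 0 * X 2) + C (nu 0) * (X 1 * X 2) :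
          MvPolynomial (Fin 3) ℂ) =
        C (lam (σ 0)) * X (σ 0) ^ 2 + C (lam (σ 1)) * X (σ 1) ^ 2 + C (lam (σ 2)) * X (σ 2) ^ 2 +
        C (nu (σ 2)) * (X (σ 0) * X (σ 1)) + C (nu (σ 1)) * (X (σ 0) * X (σ 2)) +
          C (nu (σ 0)) * (X (σ 1) * X (σ 2)) := by
      rcases perm3_cases σ with ⟨h0, h1, h2⟩ | ⟨h0, h1, h2⟩ | ⟨h0, h1, h2⟩ | ⟨h0, h1, h2⟩ |
        ⟨h0, h1, h2⟩ | ⟨h0, h1, h2⟩ <;> rw [h0, h1, h2] <;> ring
    have r2 : (C (mu 0) * X 0 + C (mu 1) * X 1 + C (mu 2) * X 2 : MvPolynomial (Fin 3) ℂ) =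
        C (mu (σ 0)) * X (σ 0) + C (mu (σ 1)) * X (σ 1) + C (mu (σ 2)) * X (σ 2) := by
      rcases perm3_cases σ with ⟨h0, h1, h2⟩ | ⟨h0, h1, h2⟩ | ⟨h0, h1, h2⟩ | ⟨h0, h1, h2⟩ |
        ⟨h0, h1, h2⟩ | ⟨h0, h1, h2⟩ <;> rw [h0, h1, h2] <;> ring
    rw [← act_PP ρ (mkSigned σ ε), h σ ε, dl_mkSigned, r1, r2]
    simp only [Q6, map_add, map_mul, map_pow, act_mkSigned_X, algHom_C, smul_eq_C_mul,
      Units.val_mul, Int.cast_mul]
    have hs : ∀ e : ℤˣ, (algebraMap ℂ (MvPolynomial (Fin 3) ℂ) ((e : ℤ) : ℂ)) ^ 2 = 1 := by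
      intro e
      rcases Int.units_eq_one_or e with rfl | rfl <;> simp
    have s0 := hs (ε 0)
    have s1 := hs (ε 1)
    have s2 := hs (ε 2)
    simp only [MvPolynomial.algebraMap_eq] at s0 s1 s2 ⊢
    generalize (C ((ε 0 : ℤ) : ℂ) : MvPolynomial (Fin 3) ℂ) = E0 at *
    generalize (C ((ε 1 : ℤ) : ℂ) : MvPolynomial (Fin 3) ℂ) = E1 at *
    generalize (C ((ε 2 : ℤ) : ℂ) : MvPolynomial (Fin 3) ℂ) = E2 at *
    linear_combination C (lam (σ 0)) * X (σ 0) ^ 2 * s0 + C (lam (σ 1)) * X (σ 1) ^ 2 * s1 +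
      C (lam (σ 2)) * X (σ 2) ^ 2 * s2 +
      C (nu (σ 2)) * (X (σ 0) * X (σ 1)) * (E1 ^ 2 * s0 + s1) +
      C (nu (σ 1)) * (X (σ 0) * X (σ 2)) * (E2 ^ 2 * s0 + s2) +
      C (nu (σ 0)) * (X (σ 1) * X (σ 2)) * (E2 ^ 2 * s1 + s2)
  rw [key]
  refine (leftIdeal S0).add_mem (constel_mem (d := 2) (by norm_num) ?_) ?_
  · have hx : ∀ (c : ℂ) (i j : Fin 3),
        (C c * (X i * X j) : MvPolynomial (Fin 3) ℂ).IsHomogeneous 2 := by
      intro c i j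
      exact (isHomogeneous_C _ c).mul ((isHomogeneous_X ℂ i).mul (isHomogeneous_X ℂ j))
    have hx' : ∀ (c : ℂ) (i : Fin 3),
        (C c * X i ^ 2 : MvPolynomial (Fin 3) ℂ).IsHomogeneous 2 := by
      intro c i
      rw [sq]
      exact hx c i i
    exact ((((((hx' _ _).add (hx' _ _)).add (hx' _ _)).add (hx _ _ _)).add (hx _ _ _)).add
      (hx _ _ _))
  · refine (leftIdeal S0).mul_mem_right _ (constel_mem (d := 1) (by norm_num) ?_)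
    have hx : ∀ (c : ℂ) (i : Fin 3), (C c * X i : MvPolynomial (Fin 3) ℂ).IsHomogeneous 1 :=
      fun c i => isHomogeneous_C_mul_X c i
    exact ((hx _ _).add (hx _ _)).add (hx _ _)

end Pool.Agent.T6.H86.Hess
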