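import Pool.Agent.T6.H86.HessElts

namespace Pool.Agent.T6.H86.Hess

open MvPolynomial

theorem form_homog {n : ℕ} (α : PosRoot n) : α.form.IsHomogeneous 1 := by
  cases α with
  | diff i j h => exact (isHomogeneous_X ℂ i).sub (isHomogeneous_X ℂ j)
  | sum i j h => exact (isHomogeneous_X ℂ i).add (isHomogeneous_X ℂ j)
  | long i =>
    have := isHomogeneous_C_mul_X (2 : ℂ) i
    rw [map_ofNat] at this
    exact this

theorem hc_spline {n : ℕ} {S : Set (PosRoot n)} {ρ : SignedPerm n → MvPolynomial (Fin n) ℂ}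
    (hρ : ρ ∈ splineRing S) (m : ℕ) : (fun v => homogeneousComponent m (ρ v)) ∈ splineRing S := by
  intro α hα v
  show _ ∣ homogeneousComponent m (ρ v) - homogeneousComponent m (ρ (v * α.refl))
  rw [← map_sub]
  exact hc_dvd (act_homog v (form_homog α)) (hρ α hα v) m

theorem const_step {S : Set (PosRoot 3)} {ρ : SignedPerm 3 → MvPolynomial (Fin 3) ℂ}
    (hρ : ρ ∈ splineRing S) (hh : ∀ v, (ρ v).IsHomogeneous 0) {α : PosRoot 3} (hα : α ∈ S)
    (v : SignedPerm 3) : ρ (v * α.refl) = ρ v := by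
  obtain ⟨a, ha⟩ := const_form (hh v)
  obtain ⟨b, hb⟩ := const_form (hh (v * α.refl))
  obtain ⟨q, hq⟩ := hρ α hα v
  have h0 := congrArg (eval 0) hq
  have h1 : eval 0 (act v α.form) = 0 := by
    have := eval_smul_homog (act_homog v (form_homog α)) 0 0
    simpa using this
  rw [map_mul, h1, zero_mul, ha, hb, map_sub, eval_C, eval_C, sub_eq_zero] at h0
  rw [ha, hb, h0]

theorem negOne_eq : negOne 3 = (PosRoot.diff 0 2 (by decide)).refl *
    (PosRoot.sum 0 2 (by decide)).refl * ((PosRoot.diff 1 2 (by decide)).refl *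
    (PosRoot.long 2).refl * (PosRoot.diff 1 2 (by decide)).refl) := by
  unfold negOne PosRoot.refl
  simp only [mkSigned_mul]
  have h1 : (Equiv.swap (0 : Fin 3) 2 * Equiv.swap 0 2 * (Equiv.swap 1 2 * 1 * Equiv.swap 1 2) :
    Equiv.Perm (Fin 3)) = 1 := by decide
  rw [h1]
  congr 1
  funext k
  fin_cases k <;> decide

theorem const_even {ρ : SignedPerm 3 → MvPolynomial (Fin 3) ℂ}
    (hρ : ρ ∈ splineRing S0) (hh : ∀ v, (ρ v).IsHomogeneous 0) (v : SignedPerm 3) :
    ρ (negOne 3 * v) = ρ v := by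
  rw [negOne_comm, negOne_eq]
  simp only [← mul_assoc]
  rw [const_step hρ hh (by simp [S0]), const_step hρ hh (by simp [S0]),
    const_step hρ hh (by simp [S0]), const_step hρ hh (by simp [S0]),
    const_step hρ hh (by simp [S0])]

theorem PP_even1 {ρ : SignedPerm 3 → MvPolynomial (Fin 3) ℂ} (hh : ∀ v, (ρ v).IsHomogeneous 1)
    (hev : ∀ v, ρ (negOne 3 * v) = - ρ v) (v : SignedPerm 3) :
    PP ρ (negOne 3 * v) = PP ρ v := by
  unfold PP
  rw [hev, mul_inv_rev, negOne_inv, act_mul, map_neg, act_negOne (hh v)]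
  simp

/-- The even linear splines are combinations of the invariant ones. -/
theorem lin_spline {ρ : SignedPerm 3 → MvPolynomial (Fin 3) ℂ}
    (hρ : ρ ∈ splineRing S0) (hh : ∀ v, (ρ v).IsHomogeneous 1)
    (hodd : ∀ v, ρ (negOne 3 * v) = - ρ v) :
    ∃ c0 c1 c2 : ℂ, ∀ v, ρ v = C c0 * act v (X 0) + C c1 * act v (X 1) + C c2 * act v (X 2) := by
  have hev := PP_even1 hh hodd
  have hP : ∀ v, (PP ρ v).IsHomogeneous 1 := fun v => act_homog _ (hh v)
  set a : Equiv.Perm (Fin 3) → Fin 4 → ℂ := fun σ i => cA (PP ρ (VV σ i)) with ha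
  set b : Equiv.Perm (Fin 3) → Fin 4 → ℂ := fun σ i => cB (PP ρ (VV σ i)) with hb
  set c : Equiv.Perm (Fin 3) → Fin 4 → ℂ := fun σ i => cC (PP ρ (VV σ i)) with hc
  have b1 : ∀ σ i, a (σ * Equiv.swap 0 2) (pb i) + c (σ * Equiv.swap 0 2) (pb i) =
      a σ i + c σ i := by
    intro σ i
    have h1 := rel_b hρ hev σ i (x := ![1, 0, 1]) (by simp)
    rw [lin_eval (hP _), lin_eval (hP _)] at h1
    simp at h1
    linear_combination h1
  have b2 : ∀ σ i, b (σ * Equiv.swap 0 2) (pb i) = b σ i := by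
    intro σ i
    exact rel_b hρ hev σ i (x := ![0, 1, 0]) (by simp)
  have b1' : ∀ σ i, a (σ * Equiv.swap 0 2) (pb' i) - c (σ * Equiv.swap 0 2) (pb' i) =
      a σ i - c σ i := by
    intro σ i
    have h1 := rel_b' hρ hev σ i (x := ![1, 0, -1]) (by simp)
    rw [lin_eval (hP _), lin_eval (hP _)] at h1
    simp at h1
    linear_combination h1
  have b2' : ∀ σ i, b (σ * Equiv.swap 0 2) (pb' i) = b σ i := by
    intro σ i
    exact rel_b' hρ hev σ i (x := ![0, 1, 0]) (by simp)
  have c1 : ∀ σ i, a (σ * Equiv.swap 1 2) (pc i) = a σ i := by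
    intro σ i
    exact rel_c hρ hev σ i (x := ![1, 0, 0]) (by simp)
  have c2 : ∀ σ i, b (σ * Equiv.swap 1 2) (pc i) + c (σ * Equiv.swap 1 2) (pc i) =
      b σ i + c σ i := by
    intro σ i
    have h1 := rel_c hρ hev σ i (x := ![0, 1, 1]) (by simp)
    rw [lin_eval (hP _), lin_eval (hP _)] at h1
    simp at h1
    linear_combination h1
  have c1' : ∀ σ i, a (σ * Equiv.swap 1 2) (pc' i) = a σ i := by
    intro σ i
    exact rel_c' hρ hev σ i (x := ![1, 0, 0]) (by simp)
  have c2' : ∀ σ i, b (σ * Equiv.swap 1 2) (pc' i) - c (σ * Equiv.swap 1 2) (pc' i) =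
      b σ i - c σ i := by
    intro σ i
    have h1 := rel_c' hρ hev σ i (x := ![0, 1, -1]) (by simp)
    rw [lin_eval (hP _), lin_eval (hP _)] at h1
    simp at h1
    linear_combination h1
  have t1 : ∀ σ i, a σ (pt i) = a σ i := by
    intro σ i
    exact rel_t hρ hev σ i (x := ![1, 0, 0]) (by simp)
  have t2 : ∀ σ i, b σ (pt i) = b σ i := by
    intro σ i
    exact rel_t hρ hev σ i (x := ![0, 1, 0]) (by simp)
  -- consequences
  have A_all : ∀ σ, a σ 1 = a σ 0 ∧ a σ 2 = a σ 0 ∧ a σ 3 = a σ 0 ∧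
      a (σ * Equiv.swap 1 2) 0 = a σ 0 := by
    intro σ
    obtain ⟨h0, h1, h2, h3⟩ := four (c1 σ)
    obtain ⟨k0, k1, k2, k3⟩ := four (c1' σ)
    obtain ⟨t0, t1, t2, t3⟩ := four (t1 σ)
    simp only [pc0, pc1, pc2, pc3, pc'0, pc'1, pc'2, pc'3, pt0, pt1, pt2, pt3] at *
    clear_value a b c
    clear hev
    grind
  have B_all : ∀ σ, b σ 1 = b σ 0 ∧ b σ 2 = b σ 0 ∧ b σ 3 = b σ 0 ∧
      b (σ * Equiv.swap 0 2) 0 = b σ 0 := by
    intro σ
    obtain ⟨h0, h1, h2, h3⟩ := four (b2 σ)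
    obtain ⟨k0, k1, k2, k3⟩ := four (b2' σ)
    obtain ⟨t0, t1, t2, t3⟩ := four (t2 σ)
    simp only [pb0, pb1, pb2, pb3, pb'0, pb'1, pb'2, pb'3, pt0, pt1, pt2, pt3] at *
    clear_value a b c
    clear hev
    grind
  have bAC : ∀ σ, a (σ * Equiv.swap 0 2) 0 = a σ 0 ∧ c σ 2 = c σ 0 ∧ c σ 3 = c σ 1 ∧
      c (σ * Equiv.swap 0 2) 0 = c σ 0 := by
    intro σ
    obtain ⟨h0, h1, h2, h3⟩ := four (b1 σ)
    obtain ⟨k0, k1, k2, k3⟩ := four (b1' σ)
    obtain ⟨a1, a2, a3, a4⟩ := A_all σ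
    obtain ⟨a1', a2', a3', a4'⟩ := A_all (σ * Equiv.swap 0 2)
    simp only [pb0, pb1, pb2, pb3, pb'0, pb'1, pb'2, pb'3] at *
    clear_value a b c
    clear hev
    grind
  have cBC : ∀ σ, b (σ * Equiv.swap 1 2) 0 = b σ 0 ∧ c σ 1 = c σ 0 ∧
      c (σ * Equiv.swap 1 2) 0 = c σ 0 := by
    intro σ
    obtain ⟨h0, h1, h2, h3⟩ := four (c2 σ)
    obtain ⟨k0, k1, k2, k3⟩ := four (c2' σ)
    obtain ⟨a1, a2, a3, a4⟩ := B_all σ
    obtain ⟨a1', a2', a3', a4'⟩ := B_all (σ * Equiv.swap 1 2)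
    simp only [pc0, pc1, pc2, pc3, pc'0, pc'1, pc'2, pc'3] at *
    clear_value a b c
    clear hev
    grind
  have hA : ∀ σ, a σ 0 = a 1 0 :=
    const_of_bc (f := fun σ => a σ 0) (fun σ => (bAC σ).1) (fun σ => (A_all σ).2.2.2)
  have hB : ∀ σ, b σ 0 = b 1 0 :=
    const_of_bc (f := fun σ => b σ 0) (fun σ => (B_all σ).2.2.2) (fun σ => (cBC σ).1)
  have hC : ∀ σ, c σ 0 = c 1 0 :=
    const_of_bc (f := fun σ => c σ 0) (fun σ => (bAC σ).2.2.2) (fun σ => (cBC σ).2.2)
  refine ⟨a 1 0, b 1 0, c 1 0, fun v => ?_⟩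
  obtain ⟨σ, ε, rfl⟩ := exists_mkSigned v
  have key : ∀ ε : Fin 3 → ℤˣ, ∃ i, ε = sg i ∨ ε = fun k => - sg i k := by decide
  obtain ⟨i, hi⟩ := key ε
  have hPP : PP ρ (mkSigned σ ε) = L3 (a 1 0) (b 1 0) (c 1 0) := by
    rw [even_eq hev σ hi, lin_eq (hP _)]
    have e1 : cA (PP ρ (mkSigned σ (sg i))) = a 1 0 := by
      show a σ i = _
      obtain ⟨a1, a2, a3, -⟩ := A_all σ
      rw [← hA σ]
      fin_cases i
      · rfl
      · exact a1
      · exact a2
      · exact a3
    have e2 : cB (PP ρ (mkSigned σ (sg i))) = b 1 0 := by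
      show b σ i = _
      obtain ⟨a1, a2, a3, -⟩ := B_all σ
      rw [← hB σ]
      fin_cases i
      · rfl
      · exact a1
      · exact a2
      · exact a3
    have e3 : cC (PP ρ (mkSigned σ (sg i))) = c 1 0 := by
      show c σ i = _
      obtain ⟨-, a2, a3, -⟩ := bAC σ
      obtain ⟨-, a1, -⟩ := cBC σ
      rw [← hC σ]
      fin_cases i
      · rfl
      · exact a1
      · exact a2
      · exact a3.trans a1
    rw [e1, e2, e3]
  rw [← act_PP ρ (mkSigned σ ε), hPP]
  simp only [L3, map_add, map_mul, algHom_C, MvPolynomial.algebraMap_eq]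

/-- The property of the odd degree two part used to describe the ideal. -/
def OddForm (y : SplineRing S0) : Prop :=
  ∃ l : Fin 3 → MvPolynomial (Fin 3) ℂ, ∀ v,
    homogeneousComponent 2 (y.1 v) - homogeneousComponent 2 (y.1 (negOne 3 * v)) =
      l 0 * act v (X 0) + l 1 * act v (X 1) + l 2 * act v (X 2)

theorem oddForm_gen (a y : SplineRing S0) (p : MvPolynomial (Fin 3) ℂ) (d : ℕ) (hd : 0 < d)
    (hp : p.IsHomogeneous d) (hy : ∀ w, y.1 w = p) : OddForm (a * y) := by
  have h1 : ∀ v, (a * y).1 v = p * a.1 v := by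
    intro v
    show a.1 v * y.1 v = _
    rw [hy, mul_comm]
  rcases Nat.lt_or_ge 2 d with h | h
  · refine ⟨fun _ => 0, fun v => ?_⟩
    rw [h1, h1, hc_mul hp, hc_mul hp, if_neg (by omega), if_neg (by omega)]
    simp
  · interval_cases d
    · -- degree one
      obtain ⟨c0, c1, c2, hc⟩ := lin_spline (ρ := fun v => homogeneousComponent 1 (a.1 v) -
        homogeneousComponent 1 (a.1 (negOne 3 * v))) (by
          refine sub_mem (hc_spline a.2 1) ?_
          have h2 : (fun v => homogeneousComponent 1 (a.1 (negOne 3 * v))) ∈ splineRing S0 := by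
            have h3 := (dot S0 (negOne 3) ⟨_, hc_spline a.2 1⟩).2
            have h4 : (dot S0 (negOne 3) ⟨_, hc_spline a.2 1⟩).1 =
                - (fun v => homogeneousComponent 1 (a.1 (negOne 3 * v))) := by
              funext v
              show act (negOne 3) (homogeneousComponent 1 (a.1 ((negOne 3)⁻¹ * v))) = _
              rw [negOne_inv, act_negOne (homogeneousComponent_isHomogeneous _ _)]
              simp
            rw [h4] at h3
            simpa using neg_mem h3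
          exact h2)
        (fun v => (homogeneousComponent_isHomogeneous _ _).sub
          (homogeneousComponent_isHomogeneous _ _))
        (fun v => by
          rw [← mul_assoc, negOne_mul_self, one_mul, neg_sub])
      refine ⟨![p * C c0, p * C c1, p * C c2], fun v => ?_⟩
      rw [h1, h1, hc_mul hp, hc_mul hp, if_pos (by omega), if_pos (by omega)]
      have := hc v
      rw [show 2 - 1 = 1 from rfl, ← mul_sub, this]
      simp
      ring
    · refine ⟨fun _ => 0, fun v => ?_⟩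
      rw [h1, h1, hc_mul hp, hc_mul hp, if_pos (by omega), if_pos (by omega)]
      have h2 := const_even (hc_spline a.2 0) (fun v => homogeneousComponent_isHomogeneous _ _) v
      simp [h2]

theorem oddForm_of_mem (y : SplineRing S0) (hy : y ∈ leftIdeal S0) : OddForm y := by
  have h : ∀ a, OddForm (a * y) := by
    unfold leftIdeal at hy
    refine Submodule.span_induction ?_ ?_ ?_ ?_ hy
    · rintro x ⟨p, d, hd, hp, hx⟩ a
      exact oddForm_gen a x p d hd hp hx
    · intro a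
      refine ⟨fun _ => 0, fun v => ?_⟩
      have e : ∀ v, (a * 0).1 v = 0 := by
        intro v
        rw [mul_zero]
        rfl
      rw [e, e]
      simp
    · intro x z _ _ hx hz a
      obtain ⟨l, hl⟩ := hx a
      obtain ⟨m, hm⟩ := hz a
      refine ⟨fun i => l i + m i, fun v => ?_⟩
      have e : ∀ v, (a * (x + z)).1 v = (a * x).1 v + (a * z).1 v := by
        intro v
        rw [mul_add]
        rfl
      rw [e, e, map_add, map_add]
      linear_combination hl v + hm v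
    · intro c x _ hx a
      have := hx (a * c)
      rwa [mul_assoc] at this
  have := h 1
  rwa [one_mul] at this

end Pool.Agent.T6.H86.Hess
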